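import Pool.Agent.H85.BM.Norm

/-! # The algebra is trivial at the places where the valuation of `a` is even -/

set_option autoImplicit false

namespace Pool.Agent.H85.BM

open NumberField IsDedekindDomain WithZero

section loc

variable {L : Type} [Field L] [NumberField L] (w : HeightOneSpectrum (𝓞 L))

lemma tri {x y z : w.adicCompletion L} (h : x + y = z) {i j k : ℤ}
    (hx : Valued.v x = exp i) (hy : Valued.v y = exp j) (hz : Valued.v z = exp k) :
    (k ≤ i ∨ k ≤ j) ∧ (i ≤ k ∨ i ≤ j) ∧ (j ≤ k ∨ j ≤ i) := by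
  have key : ∀ {x y z : w.adicCompletion L} (_ : x + y = z) {i j k : ℤ}
      (_ : Valued.v x = exp i) (_ : Valued.v y = exp j) (_ : Valued.v z = exp k),
      k ≤ i ∨ k ≤ j := by
    intro x y z h i j k hx hy hz
    rcases le_total i j with hij | hij
    · right
      have h1 : Valued.v (x + y) ≤ exp j :=
        Valuation.map_add_le _ (by rw [hx, exp_le_exp]; exact hij) hy.le
      rwa [h, hz, exp_le_exp] at h1
    · left
      have h1 : Valued.v (x + y) ≤ exp i :=
        Valuation.map_add_le _ hx.le (by rw [hy, exp_le_exp]; exact hij)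
      rwa [h, hz, exp_le_exp] at h1
  have hx' : Valued.v (-x) = exp i := by rw [Valuation.map_neg, hx]
  have hy' : Valued.v (-y) = exp j := by rw [Valuation.map_neg, hy]
  exact ⟨key h hx hy hz, key (x := z) (y := -y) (by rw [← h]; ring) hz hy' hx,
    key (x := z) (y := -x) (by rw [← h]; ring) hz hx' hy⟩

/-- the alternative: all elements are norms, or exactly those of even valuation -/
def Unr (a : w.adicCompletion L) : Prop :=
  (∀ b, IsNorm a b) ∨ ∀ b, b ≠ 0 → (IsNorm a b ↔ ∃ m : ℤ, Valued.v b = exp (2 * m))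

theorem even_triv (a : w.adicCompletion L) (ha : Unr w a) {P : Fin 6 → w.adicCompletion L}
    (h : OnV a P) : Triv a P := by
  intro n m hn hm hnm
  rcases ha with ha | ha
  · exact ha _
  obtain ⟨e1, e2⟩ := h
  have h20 := two_ne_zero' w
  by_cases hv : P 1 = 0
  · have hu : n = P 0 ∨ n = 0 := by
      rcases hn with h | h
      · exact Or.inl h
      · exact Or.inr (by rw [h, hv])
    rcases hu with hu | hu
    swap
    · exact absurd (by rw [hu, zero_mul]) hnm
    have hm' : m = P 0 := by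
      rcases hm with h | h
      · rw [h, hv, add_zero]
      · rw [h, hv, mul_zero, add_zero]
    rw [hu, hm', ← sq]
    exact isNorm_sq _
  by_cases hu : P 0 = 0
  · have hn' : n = P 1 := by
      rcases hn with h | h
      · exact absurd (by rw [h, hu, zero_mul]) hnm
      · exact h
    rcases hm with hm | hm
    · rw [hn', hm, hu, zero_add, ← sq]
      exact isNorm_sq _
    · have h1 : n * m = (P 0 + P 1) * (P 0 + 2 * P 1) := by
        rw [hn', hm, hu]
        ring
      rw [h1, e2]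
      exact ⟨_, _, rfl⟩
  obtain ⟨i, hi⟩ := exists_exp w _ hu
  obtain ⟨j, hj⟩ := exists_exp w _ hv
  have huv : ∃ k, i + j = 2 * k := by
    obtain ⟨k, hk⟩ := (ha (P 0 * P 1) (mul_ne_zero hu hv)).1 ⟨_, _, e1.symm⟩
    rw [map_mul, hi, hj, ← exp_add, exp_inj] at hk
    exact ⟨k, hk⟩
  have hnv : ∃ i' : ℤ, Valued.v n = exp i' ∧ ∃ k, i + i' = 2 * k := by
    rcases hn with h | h
    · exact ⟨i, by rw [h, hi], i, by ring⟩
    · exact ⟨j, by rw [h, hj], huv⟩
  obtain ⟨i', hi', k', hk'⟩ := hnv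
  obtain ⟨k, hk⟩ := huv
  have hU : ∀ r : ℤ, Valued.v (P 0 + P 1) = exp r →
      (r ≤ i ∨ r ≤ j) ∧ (i ≤ r ∨ i ≤ j) ∧ (j ≤ r ∨ j ≤ i) := fun r hr => tri w rfl hi hj hr
  have hW : ∀ r s : ℤ, Valued.v (P 0 + P 1) = exp r → Valued.v (P 0 + 2 * P 1) = exp s →
      (s ≤ r ∨ s ≤ j) ∧ (r ≤ s ∨ r ≤ j) ∧ (j ≤ s ∨ j ≤ r) := fun r s hr hs =>
    tri w (by ring) hr hj hs
  have hm2 : ∃ r : ℤ, Valued.v m = exp r ∧ ∃ k, i + r = 2 * k := by
    by_cases hU0 : P 0 + P 1 = 0
    · have h1 : m = P 1 := by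
        rcases hm with h | h
        · exact absurd (by rw [h, hU0, mul_zero]) hnm
        · rw [h]
          linear_combination hU0
      exact ⟨j, by rw [h1, hj], k, hk⟩
    by_cases hW0 : P 0 + 2 * P 1 = 0
    · have h1 : m = -P 1 := by
        rcases hm with h | h
        · rw [h]
          linear_combination hW0
        · exact absurd (by rw [h, hW0, mul_zero]) hnm
      exact ⟨j, by rw [h1, Valuation.map_neg, hj], k, hk⟩
    obtain ⟨r, hr⟩ := exists_exp w _ hU0
    obtain ⟨s, hs⟩ := exists_exp w _ hW0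
    have h2 := hU r hr
    have h3 := hW r s hr hs
    obtain ⟨t, ht⟩ := (ha _ (mul_ne_zero hU0 hW0)).1 ⟨_, _, e2.symm⟩
    rw [map_mul, hr, hs, ← exp_add, exp_inj] at ht
    rcases hm with h | h
    · refine ⟨r, by rw [h, hr], (i + r) / 2, ?_⟩
      omega
    · refine ⟨s, by rw [h, hs], (i + s) / 2, ?_⟩
      omega
  obtain ⟨r, hr, t, ht⟩ := hm2
  rw [ha _ hnm]
  refine ⟨(i' + r) / 2, ?_⟩
  rw [map_mul, hi', hr, ← exp_add, exp_inj]
  omega

end loc

end Pool.Agent.H85.BM
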