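import Pool.Agent.H85.BM.Ram
import Pool.Agent.H85.CY.Place
import Pool.Graph.R_seed8.W189.NF.Residue

/-! # The sum of the invariants -/

set_option autoImplicit false

namespace Pool.Agent.H85.BM

open NumberField IsDedekindDomain WithZero MvPolynomial
open Pool.Agent.H85.CY (phi val_phi)

section one

variable {L : Type} [Field L] [NumberField L]

lemma exp_count (w : HeightOneSpectrum (𝓞 L)) {a : 𝓞 L} (ha : a ≠ 0) :
    ∃ A : ℕ, w.intValuation a = exp (-(A : ℤ)) ∧ w.maxPowDividing (Ideal.span {a}) =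
      w.asIdeal ^ A := by
  classical
  exact ⟨_, w.intValuation_if_neg ha, rfl⟩

/-- the parity of the number of places with `q ≡ 5` modulo `8` and odd valuation -/
lemma parity (a : 𝓞 L) (hN : Ideal.absNorm (Ideal.span {a}) % 8 = 5)
    (T : Set (HeightOneSpectrum (𝓞 L)))
    (hT : ∀ w : HeightOneSpectrum (𝓞 L), w ∈ T ↔ (∃ j : ℤ, w.intValuation a = exp (2 * j + 1)) ∧
      Ideal.absNorm w.asIdeal % 8 ≠ 1)
    (h4 : ∀ w : HeightOneSpectrum (𝓞 L), (∃ j : ℤ, w.intValuation a = exp (2 * j + 1)) →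
      Ideal.absNorm w.asIdeal % 4 = 1) :
    T.Finite ∧ Odd T.ncard := by
  classical
  have ha : a ≠ 0 := by
    rintro rfl
    rw [Ideal.span_singleton_zero, Ideal.absNorm_bot] at hN
    norm_num at hN
  have hI : Ideal.span {a} ≠ (0 : Ideal (𝓞 L)) := by
    rw [Ne, Ideal.zero_eq_bot, Ideal.span_singleton_eq_bot]
    exact ha
  choose A hA hA' using fun w : HeightOneSpectrum (𝓞 L) => exp_count w ha
  let φ : Ideal (𝓞 L) →* ZMod 8 :=
    ((Nat.castRingHom (ZMod 8) : ℕ →+* ZMod 8) : ℕ →* ZMod 8).comp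
      (Ideal.absNorm : Ideal (𝓞 L) →*₀ ℕ).toMonoidHom
  have hφ : ∀ J, φ J = ((Ideal.absNorm J : ℕ) : ZMod 8) := fun J => rfl
  -- the local factors
  have hf : ∀ w : HeightOneSpectrum (𝓞 L), φ (w.maxPowDividing (Ideal.span {a})) =
      if w ∈ T then 5 else 1 := by
    intro w
    rw [hφ, hA' w, map_pow]
    by_cases h0 : A w = 0
    · have hw : w ∉ T := by
        rw [hT]
        rintro ⟨⟨j, hj⟩, -⟩
        rw [hA w, h0, exp_inj] at hj
        push_cast at hj
        omega
      rw [if_neg hw, h0, pow_zero, Nat.cast_one]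
    · have hdvd : Ideal.absNorm w.asIdeal ∣ Ideal.absNorm (Ideal.span {a}) := by
        apply map_dvd
        have h1 : w.asIdeal ∣ w.asIdeal ^ A w := dvd_pow_self _ h0
        refine h1.trans ?_
        rw [← hA' w]
        have h2 := Ideal.finprod_heightOneSpectrum_factorization (R := 𝓞 L) hI
        conv_rhs => rw [← h2]
        exact finprod_mem_dvd w (Ideal.hasFiniteMulSupport hI)
      obtain ⟨b, hb⟩ := hdvd
      rw [hb] at hN
      set q := Ideal.absNorm w.asIdeal with hq
      have hqodd : q % 8 = 1 ∨ q % 8 = 3 ∨ q % 8 = 5 ∨ q % 8 = 7 := by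
        have h1 : (q * b) % 2 = 1 := by omega
        have h2 : q % 2 = 1 := by
          rcases Nat.mod_two_eq_zero_or_one q with h3 | h3
          · rw [Nat.mul_mod, h3] at h1
            simp at h1
          · exact h3
        omega
      have hcast : ((q ^ A w : ℕ) : ZMod 8) = ((q % 8 : ℕ) : ZMod 8) ^ A w := by
        rw [Nat.cast_pow]
        congr 1
        exact (ZMod.natCast_mod q 8).symm
      rw [hcast]
      have hpar : (∃ j : ℤ, w.intValuation a = exp (2 * j + 1)) ↔ A w % 2 = 1 := by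
        rw [hA w]
        constructor
        · rintro ⟨j, hj⟩
          rw [exp_inj] at hj
          omega
        · intro h
          refine ⟨-((A w : ℤ) + 1) / 2, ?_⟩
          rw [exp_inj]
          omega
      have hsq : (((q % 8 : ℕ) : ZMod 8)) ^ 2 = 1 := by
        rcases hqodd with h | h | h | h <;> rw [h] <;> decide
      rcases Nat.mod_two_eq_zero_or_one (A w) with h | h
      · have hw : w ∉ T := by
          rw [hT, hpar]
          rintro ⟨h1, -⟩
          omega
        rw [if_neg hw]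
        obtain ⟨m, hm⟩ : ∃ m, A w = 2 * m := ⟨A w / 2, by omega⟩
        rw [hm, pow_mul, hsq, one_pow]
      · obtain ⟨m, hm⟩ : ∃ m, A w = 2 * m + 1 := ⟨A w / 2, by omega⟩
        have h5 := h4 w (hpar.2 h)
        rw [hm, pow_succ, pow_mul, hsq, one_pow, one_mul]
        by_cases h8 : q % 8 = 1
        · have hw : w ∉ T := by
            rw [hT]
            rintro ⟨-, h1⟩
            exact h1 h8
          rw [if_neg hw, h8, Nat.cast_one]
        · have hw : w ∈ T := by
            rw [hT]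
            exact ⟨hpar.2 h, h8⟩
          have h9 : q % 8 = 5 := by omega
          rw [if_pos hw, h9]
          rfl
  have hfin : T.Finite := by
    refine Set.Finite.subset (Ideal.hasFiniteMulSupport hI) ?_
    intro w hw
    rw [Function.mem_mulSupport]
    intro h1
    have h2 := hf w
    rw [h1, map_one, if_pos hw] at h2
    exact absurd h2 (by decide)
  refine ⟨hfin, ?_⟩
  have hprod : φ (Ideal.span {a}) = ∏ᶠ w : HeightOneSpectrum (𝓞 L), if w ∈ T then 5 else 1 := by
    have h1 := Ideal.finprod_heightOneSpectrum_factorization (R := 𝓞 L) hI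
    conv_lhs => rw [← h1]
    rw [MonoidHom.map_finprod φ (Ideal.hasFiniteMulSupport hI)]
    exact finprod_congr hf
  have hprod2 : (∏ᶠ w : HeightOneSpectrum (𝓞 L), if w ∈ T then (5 : ZMod 8) else 1) =
      5 ^ T.ncard := by
    rw [finprod_eq_prod_of_mulSupport_subset (s := hfin.toFinset)]
    · rw [Finset.prod_congr rfl (g := fun _ => (5 : ZMod 8))]
      · rw [Finset.prod_const, Set.ncard_eq_toFinset_card T hfin]
      · intro w hw
        rw [Set.Finite.mem_toFinset] at hw
        rw [if_pos hw]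
    · intro w hw
      rw [Function.mem_mulSupport] at hw
      rw [Set.Finite.coe_toFinset]
      by_contra h
      rw [if_neg h] at hw
      exact hw rfl
  rw [hφ, hprod2] at hprod
  have h5 : ((Ideal.absNorm (Ideal.span {a}) : ℕ) : ZMod 8) = 5 := by
    rw [← ZMod.natCast_mod, hN]
    rfl
  rw [h5] at hprod
  by_contra hcon
  rw [Nat.not_odd_iff_even] at hcon
  obtain ⟨m, hm⟩ := hcon
  have h6 : (5 : ZMod 8) ^ 2 = 1 := by decide
  rw [hm, ← two_mul, pow_mul, h6, one_pow] at hprod
  exact absurd hprod (by decide)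

end one

section two

variable {K L : Type} [Field K] [NumberField K] [Field L] [NumberField L] [Algebra K L]

lemma absNorm_up (I : Ideal (𝓞 K)) : Ideal.absNorm (I.map (algebraMap (𝓞 K) (𝓞 L))) =
    Ideal.absNorm I ^ Module.finrank K L := by
  rw [Ideal.absNorm_algebraMap (𝓞 K) (𝓞 L) I]
  congr 1
  exact (IsFractionRing.finrank_eq (𝓞 K) K (𝓞 L) L).symm

lemma norm_up (a : 𝓞 K) (h : Ideal.absNorm (Ideal.span {a}) % 8 = 5)
    (hodd : Odd (Module.finrank K L)) :
    Ideal.absNorm (Ideal.span {algebraMap (𝓞 K) (𝓞 L) a}) % 8 = 5 := by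
  have h1 : Ideal.span {algebraMap (𝓞 K) (𝓞 L) a} =
      (Ideal.span {a}).map (algebraMap (𝓞 K) (𝓞 L)) := by
    rw [Ideal.map_span, Set.image_singleton]
  rw [h1, absNorm_up]
  obtain ⟨m, hm⟩ := hodd
  rw [hm, pow_succ, pow_mul, Nat.mul_mod, Nat.pow_mod, Nat.pow_mod _ 2, h]
  norm_num

instance (w : HeightOneSpectrum (𝓞 L)) : Finite (kk w) := by
  apply Nat.finite_of_card_ne_zero
  have h1 : Nat.card (kk w) = Ideal.absNorm w.asIdeal := Pool.Agent.W189.NF.card_residue w
  rw [h1]
  exact fun h => w.ne_bot (Ideal.absNorm_eq_zero_iff.1 h)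

lemma card_kk (w : HeightOneSpectrum (𝓞 L)) : Nat.card (kk w) = Ideal.absNorm w.asIdeal :=
  Pool.Agent.W189.NF.card_residue w

lemma phi_le (w : HeightOneSpectrum (𝓞 L)) (a : 𝓞 K) : Valued.v (phi K w a) ≤ 1 := by
  rw [val_phi]
  exact w.intValuation_le_one _

/-- a homogeneous form of degree two scales -/
lemma eval_smul {F : Type} [Field F] (G : MvPolynomial (Fin 6) F) (hG : G.IsHomogeneous 2)
    (z : F) (Q : Fin 6 → F) : eval (z • Q) G = z ^ 2 * eval Q G := by
  rw [eval_eq', eval_eq', Finset.mul_sum]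
  refine Finset.sum_congr rfl fun d hd => ?_
  have h1 : ∑ i, d i = 2 := by
    have h2 := hG (mem_support_iff.1 hd)
    rw [Finsupp.weight_apply, Finsupp.sum_fintype] at h2
    · simpa using h2
    · intro i
      simp
  have h2 : ∏ i, (z • Q) i ^ d i = z ^ 2 * ∏ i, Q i ^ d i := by
    rw [← h1, ← Finset.prod_pow_eq_pow_sum, ← Finset.prod_mul_distrib]
    refine Finset.prod_congr rfl fun i _ => ?_
    rw [Pi.smul_apply, smul_eq_mul, mul_pow]
  rw [h2]
  ring

/-- the bound for the values of an integral form -/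
lemma eval_bound (w : HeightOneSpectrum (𝓞 L)) (a : w.adicCompletion L)
    (G : MvPolynomial (Fin 6) (𝓞 K)) (hG : G.IsHomogeneous 2)
    (Q : Fin 6 → w.adicCompletion L) (hQ : ∀ i, Valued.v (a * Q i ^ 2) < 1) :
    Valued.v (a * eval Q (map (phi K w) G)) < 1 := by
  rw [eval_eq', Finset.mul_sum]
  refine Valuation.map_sum_lt _ one_ne_zero fun d hd => ?_
  have hd' := hG.map (phi K w) (mem_support_iff.1 hd)
  have h1 : ∑ i, d i = 2 := by
    rw [Finsupp.weight_apply, Finsupp.sum_fintype] at hd'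
    · simpa using hd'
    · intro i
      simp
  have h2 : a * (coeff d (map (phi K w) G) * ∏ i, Q i ^ d i) =
      coeff d (map (phi K w) G) * (a * ∏ i, Q i ^ d i) := by ring
  rw [h2, coeff_map]
  refine v_mul_lt w (phi_le w _) (sq_lt_one w ?_)
  have h3 : (a * ∏ i, Q i ^ d i) ^ 2 = ∏ i, (a * Q i ^ 2) ^ d i := by
    have h4 : ∏ i, (a * Q i ^ 2) ^ d i = (∏ i : Fin 6, a ^ d i) * ∏ i, (Q i ^ d i) ^ 2 := by
      rw [← Finset.prod_mul_distrib]
      refine Finset.prod_congr rfl fun i _ => ?_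
      rw [mul_pow, ← pow_mul, ← pow_mul, mul_comm 2]
    rw [h4, Finset.prod_pow_eq_pow_sum, h1, Finset.prod_pow]
    ring
  rw [h3, map_prod]
  calc ∏ i, Valued.v ((a * Q i ^ 2) ^ d i) ≤ ∏ i : Fin 6, exp (-1 : ℤ) ^ d i := by
        refine Finset.prod_le_prod' fun i _ => ?_
        rw [map_pow]
        exact pow_le_pow_left' ((lt_one_iff w _).1 (hQ i)) _
    _ = exp (-1 : ℤ) ^ 2 := by rw [Finset.prod_pow_eq_pow_sum, h1]
    _ < 1 := by
      rw [← exp_nsmul, ← exp_zero, exp_lt_exp]
      norm_num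

/-- the value of the algebra at the places -/
theorem places (w : HeightOneSpectrum (𝓞 L)) (c k e : 𝓞 K)
    (hN : Ideal.absNorm (Ideal.span {algebraMap (𝓞 K) (𝓞 L) (c ^ 2 + 4 * k)}) % 2 = 1)
    (hco : IsCoprime (c ^ 2 + 4 * k) e) (G : MvPolynomial (Fin 6) (𝓞 K))
    (hG : G.IsHomogeneous 2) {P : Fin 6 → w.adicCompletion L} (hP : P ≠ 0)
    (h : OnV (phi K w (c ^ 2 + 4 * k)) P)
    (h3 : phi K w e * (P 2 ^ 2 - P 4 ^ 2) =
      phi K w (c ^ 2 + 4 * k) * eval P (map (phi K w) G)) :
    ((∃ j : ℤ, Valued.v (phi K w (c ^ 2 + 4 * k)) = exp (2 * j + 1)) →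
      Ideal.absNorm w.asIdeal % 4 = 1 ∧
      (Triv (phi K w (c ^ 2 + 4 * k)) P ↔ Ideal.absNorm w.asIdeal % 8 = 1)) ∧
    ((¬ ∃ j : ℤ, Valued.v (phi K w (c ^ 2 + 4 * k)) = exp (2 * j + 1)) →
      Triv (phi K w (c ^ 2 + 4 * k)) P) := by
  classical
  set a : 𝓞 K := c ^ 2 + 4 * k with hadef
  set b : 𝓞 L := algebraMap (𝓞 K) (𝓞 L) a with hb
  have hb0 : b ≠ 0 := by
    intro h0
    rw [h0, Ideal.span_singleton_zero, Ideal.absNorm_bot] at hN
    norm_num at hN
  obtain ⟨A, hA, hA'⟩ := exp_count w hb0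
  have hva : Valued.v (phi K w a) = exp (-(A : ℤ)) := by rw [val_phi, ← hb, hA]
  have h2 : A ≠ 0 → Valued.v (2 : w.adicCompletion L) = 1 := by
    intro hA0
    by_contra hcon
    have h4 : Valued.v (2 : w.adicCompletion L) < 1 := lt_of_le_of_ne (v_two_le w) hcon
    have h5 : Valued.v (phi K w 2) < 1 := by rw [map_ofNat]; exact h4
    rw [val_phi, map_ofNat] at h5
    have h6 : (2 : 𝓞 L) ∈ w.asIdeal := by
      rw [← HeightOneSpectrum.intValuation_lt_one_iff_mem]
      exact h5
    have h7 : b ∈ w.asIdeal := by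
      rw [← HeightOneSpectrum.intValuation_lt_one_iff_mem, hA, ← exp_zero, exp_lt_exp]
      omega
    have h8 : Ideal.absNorm w.asIdeal ∣ Ideal.absNorm (Ideal.span {b}) := by
      apply map_dvd
      rw [Ideal.dvd_span_singleton]
      exact h7
    have h9 : Ideal.absNorm w.asIdeal ∣ Ideal.absNorm (Ideal.span {(2 : 𝓞 L)}) := by
      apply map_dvd
      rw [Ideal.dvd_span_singleton]
      exact h6
    have h10 : Ideal.absNorm (Ideal.span {(2 : 𝓞 L)}) = 2 ^ Module.finrank ℤ (𝓞 L) :=
      Ideal.absNorm_span_natCast 2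
    rw [h10] at h9
    have h11 : Nat.Coprime (Ideal.absNorm w.asIdeal) (Ideal.absNorm w.asIdeal) := by
      refine Nat.Coprime.coprime_dvd_left h8 (Nat.Coprime.coprime_dvd_right h9 ?_)
      apply Nat.Coprime.pow_right
      rw [Nat.coprime_two_right, Nat.odd_iff]
      exact hN
    rw [Nat.coprime_self, Ideal.absNorm_eq_one_iff] at h11
    exact w.isPrime.ne_top h11
  constructor
  · rintro ⟨j, hj⟩
    have hA0 : A ≠ 0 := by
      intro h0
      rw [hva, h0, exp_inj] at hj
      push_cast at hj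
      omega
    have ha1 : Valued.v (phi K w a) < 1 := by
      rw [hva, ← exp_zero, exp_lt_exp]
      omega
    have he : Valued.v (phi K w e) = 1 := by
      by_contra hcon
      have h4 : Valued.v (phi K w e) < 1 := lt_of_le_of_ne (phi_le w e) hcon
      obtain ⟨x, y, hxy⟩ := hco
      have h5 := congrArg (phi K w) hxy
      rw [map_add, map_mul, map_mul, map_one] at h5
      have h6 : Valued.v (1 : w.adicCompletion L) < 1 := by
        rw [← h5]
        exact Valuation.map_add_lt _ (v_mul_lt w (phi_le w x) ha1) (v_mul_lt w (phi_le w y) h4)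
      rw [map_one] at h6
      exact lt_irrefl _ h6
    rw [← card_kk]
    exact ram w (h2 hA0) (phi K w a) (phi K w e) hj ha1 he
      (fun Q => eval Q (map (phi K w) G))
      (fun z Q => eval_smul _ (hG.map _) z Q)
      (fun Q hQ => eval_bound w _ G hG Q hQ) hP h h3
  · intro hne
    apply even_triv w _ _ h
    by_cases hA0 : A = 0
    · refine unr w (phi K w a) 1 (phi K w c) (phi K w k) one_ne_zero ?_ (phi_le w c)
        (phi_le w k) ?_
      · rw [hadef]
        simp only [map_add, map_mul, map_pow, map_ofNat, one_pow, one_mul]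
      · have h4 : phi K w c ^ 2 + 4 * phi K w k = phi K w a := by
          rw [hadef]
          simp only [map_add, map_mul, map_pow, map_ofNat]
        rw [h4, hva, hA0]
        rfl
    · obtain ⟨m, hm⟩ : ∃ m : ℤ, -(A : ℤ) = 2 * m := by
        refine ⟨-(A : ℤ) / 2, ?_⟩
        by_contra hcon
        apply hne
        refine ⟨-(A : ℤ) / 2, ?_⟩
        rw [hva, exp_inj]
        omega
      obtain ⟨ρ, hρ0, hρ⟩ := exists_val w m
      have h20 := two_ne_zero' w
      have h40 : (4 : w.adicCompletion L) ≠ 0 := by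
        have h5 : (4 : w.adicCompletion L) = 2 * 2 := by norm_num
        rw [h5]
        exact mul_ne_zero h20 h20
      have hv4 : Valued.v (4 : w.adicCompletion L) = 1 := by
        have h5 : (4 : w.adicCompletion L) = 2 * 2 := by norm_num
        rw [h5, map_mul, h2 hA0, one_mul]
      have hva' : Valued.v (phi K w a / ρ ^ 2) = 1 := by
        rw [map_div₀, map_pow, hva, hρ, hm, ← exp_nsmul, ← exp_sub]
        simp
      refine unr w (phi K w a) ρ 0 (phi K w a / ρ ^ 2 / 4) hρ0 ?_ ?_ ?_ ?_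
      · field_simp
        ring
      · rw [map_zero]
        exact zero_le_one
      · rw [map_div₀, hva', hv4, div_one]
      · have h5 : (0 : w.adicCompletion L) ^ 2 + 4 * (phi K w a / ρ ^ 2 / 4) =
            phi K w a / ρ ^ 2 := by
          field_simp
          ring
        rw [h5, hva']

end two

end Pool.Agent.H85.BM
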