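import Mathlib

/-! # Roots of quadratic polynomials in the completions of number fields -/

set_option autoImplicit false

namespace Pool.Agent.H85.BM

open NumberField IsDedekindDomain WithZero Filter Topology

variable {L : Type} [Field L] [NumberField L] (w : HeightOneSpectrum (𝓞 L))

lemma exists_exp (x : w.adicCompletion L) (hx : x ≠ 0) : ∃ k : ℤ, Valued.v x = exp k :=
  ⟨log (Valued.v x), (exp_log ((Valuation.ne_zero_iff _).2 hx)).symm⟩

lemma nhds_ball (y : w.adicCompletion L) (k : ℤ) :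
    {z : w.adicCompletion L | Valued.v (z - y) < exp k} ∈ 𝓝 y := by
  rw [Valued.mem_nhds]
  obtain ⟨z, hz⟩ := w.valuedAdicCompletion_surjective L (exp k)
  have hz0 : z ≠ 0 := by
    intro h
    rw [h, map_zero] at hz
    exact exp_ne_zero hz.symm
  refine ⟨Units.mk0 (Valued.v.restrict z) ?_, ?_⟩
  · rw [Ne, Valuation.zero_iff]
    exact hz0
  · intro x hx
    rw [Set.mem_ofPred_eq] at hx ⊢
    rw [Units.val_mk0, Valuation.restrict_lt_iff] at hx
    rwa [hz] at hx

lemma exists_lim (f : ℕ → w.adicCompletion L)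
    (h : ∀ n : ℕ, Valued.v (f (n + 1) - f n) ≤ exp (-(n : ℤ))) :
    ∃ y, ∀ n : ℕ, Valued.v (y - f n) ≤ exp (-(n : ℤ)) := by
  have hmn : ∀ n m : ℕ, n ≤ m → Valued.v (f m - f n) ≤ exp (-(n : ℤ)) := by
    intro n m hnm
    induction m, hnm using Nat.le_induction with
    | base => rw [sub_self, map_zero]; exact zero_le
    | succ m hm ih =>
      have h1 : f (m + 1) - f n = (f (m + 1) - f m) + (f m - f n) := by ring
      rw [h1]
      refine Valuation.map_add_le _ ((h m).trans ?_) ih
      rw [exp_le_exp]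
      omega
  have hC : CauchySeq f := by
    rw [CauchySeq, Valued.cauchy_iff]
    refine ⟨inferInstance, fun γ => ?_⟩
    obtain ⟨x, hx⟩ : ∃ x : w.adicCompletion L, Valued.v.restrict x = γ.1 := by
      obtain ⟨r, s, -, -, h⟩ := Valuation.exists_div_eq_of_unit Valued.v γ
      exact ⟨r / s, by rw [map_div₀, h]⟩
    have hx0 : x ≠ 0 := by
      rintro rfl
      rw [map_zero] at hx
      exact γ.ne_zero hx.symm
    obtain ⟨k, hk⟩ := exists_exp w x hx0
    set N : ℕ := (1 - k).toNat with hN
    refine ⟨f '' {n | N ≤ n}, ?_, ?_⟩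
    · rw [mem_map]
      filter_upwards [eventually_ge_atTop N] with n hn
      exact ⟨n, hn, rfl⟩
    · rintro _ ⟨n, hn, rfl⟩ _ ⟨m, hm, rfl⟩
      rw [← hx, Valuation.restrict_lt_iff, hk]
      have h1 : f m - f n = (f m - f N) - (f n - f N) := by ring
      have h2 : Valued.v (f m - f n) ≤ exp (-(N : ℤ)) := by
        rw [h1]
        exact Valuation.map_sub_le _ (hmn N m hm) (hmn N n hn)
      refine lt_of_le_of_lt h2 ?_
      rw [exp_lt_exp]
      omega
  obtain ⟨y, hy⟩ := cauchySeq_tendsto_of_complete hC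
  refine ⟨y, fun n => ?_⟩
  have h1 := hy (nhds_ball w y (-(n : ℤ)))
  rw [mem_map, mem_atTop_sets] at h1
  obtain ⟨N, hN⟩ := h1
  have h2 := hN (max N n) (le_max_left _ _)
  have h3 : Valued.v (f (max N n) - y) < exp (-(n : ℤ)) := h2
  have h4 : y - f n = (f (max N n) - f n) - (f (max N n) - y) := by ring
  rw [h4]
  exact Valuation.map_sub_le _ (hmn n _ (le_max_right _ _)) h3.le

lemma eq_zero_of_small (x : w.adicCompletion L) (h : ∀ n : ℕ, Valued.v x ≤ exp (-(n : ℤ))) :
    x = 0 := by
  by_contra hx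
  obtain ⟨k, hk⟩ := exists_exp w x hx
  have h1 := h (1 - k).toNat
  rw [hk, exp_le_exp] at h1
  omega

lemma lt_one_iff (x : w.adicCompletion L) :
    Valued.v x < 1 ↔ Valued.v x ≤ exp (-1 : ℤ) := by
  by_cases hx : x = 0
  · rw [hx, map_zero]
    exact ⟨fun _ => zero_le, fun _ => zero_lt_one⟩
  · obtain ⟨k, hk⟩ := exists_exp w x hx
    rw [hk, ← exp_zero, exp_lt_exp, exp_le_exp]
    omega

/-- Hensel's lemma for quadratic polynomials -/
theorem quad (u m : w.adicCompletion L) (hu : Valued.v u = 1) (hm : Valued.v m < 1) :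
    ∃ y : w.adicCompletion L, Valued.v y < 1 ∧ y ^ 2 + u * y + m = 0 := by
  have hu0 : u ≠ 0 := by
    rintro rfl
    rw [map_zero] at hu
    exact zero_ne_one hu
  obtain ⟨f, f0, fs⟩ : ∃ f : ℕ → w.adicCompletion L, f 0 = 0 ∧
      ∀ n, f (n + 1) = -(m + f n ^ 2) / u :=
    ⟨fun n => Nat.rec 0 (fun _ y => -(m + y ^ 2) / u) n, rfl, fun n => rfl⟩
  have hv : ∀ n, Valued.v (f n) ≤ exp (-1 : ℤ) := by
    intro n
    induction n with
    | zero => rw [f0, map_zero]; exact zero_le
    | succ n ih =>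
      rw [fs, map_div₀, hu, div_one, Valuation.map_neg]
      refine Valuation.map_add_le _ ((lt_one_iff w m).1 hm) ?_
      rw [map_pow]
      calc Valued.v (f n) ^ 2 ≤ exp (-1 : ℤ) ^ 2 := pow_le_pow_left' ih 2
        _ ≤ exp (-1 : ℤ) := by
          rw [← exp_nsmul, exp_le_exp]
          norm_num
  have hd : ∀ n : ℕ, Valued.v (f (n + 1) - f n) ≤ exp (-(n : ℤ) - 1) := by
    intro n
    induction n with
    | zero =>
      rw [f0, sub_zero]
      simpa using hv 1
    | succ n ih =>
      have h1 : f (n + 1 + 1) - f (n + 1) = -((f (n + 1) - f n) * (f (n + 1) + f n)) / u := by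
        rw [fs (n + 1), fs n]
        field_simp
        ring
      rw [h1, map_div₀, hu, div_one, Valuation.map_neg, map_mul]
      have h2 : Valued.v (f (n + 1) + f n) ≤ exp (-1 : ℤ) :=
        Valuation.map_add_le _ (hv _) (hv _)
      calc _ ≤ exp (-(n : ℤ) - 1) * exp (-1 : ℤ) := mul_le_mul' ih h2
        _ = exp (-((n + 1 : ℕ) : ℤ) - 1) := by
          rw [← exp_add]
          congr 1
          push_cast
          ring
  obtain ⟨y, hy⟩ := exists_lim w f fun n => (hd n).trans (by
    rw [exp_le_exp]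
    omega)
  refine ⟨y, ?_, ?_⟩
  · rw [lt_one_iff]
    have h1 : (y - f 1) + f 1 = y := by ring
    have h2 := Valuation.map_add_le Valued.v (hy 1) (hv 1)
    rwa [h1] at h2
  · apply eq_zero_of_small
    intro n
    have h1 : y ^ 2 + u * y + m = (y - f n) * (y + f n) + u * (y - f (n + 1)) := by
      rw [fs]
      field_simp
      ring
    have hyv : Valued.v y ≤ 1 := by
      have h1 := hy 0
      rw [f0, sub_zero] at h1
      refine h1.trans ?_
      rw [← exp_zero, exp_le_exp]
      norm_num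
    rw [h1]
    refine Valuation.map_add_le _ ?_ ?_
    · rw [map_mul]
      have h2 : Valued.v (y + f n) ≤ 1 := by
        refine Valuation.map_add_le _ hyv ((hv n).trans ?_)
        rw [← exp_zero, exp_le_exp]
        norm_num
      calc _ ≤ exp (-(n : ℤ)) * 1 := mul_le_mul' (hy n) h2
        _ = _ := mul_one _
    · rw [map_mul, hu, one_mul]
      refine (hy (n + 1)).trans ?_
      rw [exp_le_exp]
      push_cast
      omega

/-- square roots of units at the places that do not divide `2` -/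
theorem sqrt_unit (h2 : Valued.v (2 : w.adicCompletion L) = 1) (b s : w.adicCompletion L)
    (hs : Valued.v s = 1) (h : Valued.v (s ^ 2 - b) < 1) :
    ∃ r : w.adicCompletion L, Valued.v (r - s) < 1 ∧ r ^ 2 = b := by
  obtain ⟨y, hy, hy2⟩ := quad w (2 * s) (s ^ 2 - b) (by rw [map_mul, h2, hs, one_mul]) h
  refine ⟨s + y, by rwa [add_sub_cancel_left], ?_⟩
  linear_combination hy2

end Pool.Agent.H85.BM
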