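import Pool.Agent.H85.BM.Glob

/-! # The theorem over arbitrary number fields, and the archimedean places -/

set_option autoImplicit false

namespace Pool.Agent.H85.BM

open NumberField IsDedekindDomain WithZero MvPolynomial
open Pool.Agent.H85.CY (phi val_phi)

/-- the surface: three quadrics in `P⁵`, where `g` is the value of the form `G` -/
def OnX {F : Type} [Field F] (a e : F) (g : (Fin 6 → F) → F) (P : Fin 6 → F) : Prop :=
  OnV a P ∧ e * (P 2 ^ 2 - P 4 ^ 2) = a * g P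

lemma complex_triv (a : ℂ) (ha : a ≠ 0) (P : Fin 6 → ℂ) : Triv a P := by
  intro n m _ _ _
  obtain ⟨r, hr⟩ := IsAlgClosed.exists_pow_nat_eq a two_pos
  exact isNorm_of_sq two_ne_zero ha hr _

lemma real_triv (a : ℝ) (ha : a ≠ 0) {P : Fin 6 → ℝ} (h : OnV a P) : Triv a P := by
  intro n m hn hm _
  rcases lt_or_gt_of_ne ha with h0 | h0
  · obtain ⟨e1, e2⟩ := h
    have f1 : 0 ≤ P 0 * P 1 := by
      rw [e1]
      nlinarith [sq_nonneg (P 2), sq_nonneg (P 3)]
    have f2 : 0 ≤ n * m := by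
      rcases hn with rfl | rfl <;> rcases hm with rfl | rfl <;>
        nlinarith [sq_nonneg (P 0), sq_nonneg (P 1)]
    exact ⟨Real.sqrt (n * m), 0, by rw [Real.sq_sqrt f2]; ring⟩
  · exact isNorm_of_sq two_ne_zero ha (r := Real.sqrt a) (Real.sq_sqrt h0.le) _

/-- the sum of the invariants is always `1/2` -/
theorem main (K : Type) [Field K] [NumberField K] (c k e : 𝓞 K)
    (hN : Ideal.absNorm (Ideal.span {c ^ 2 + 4 * k}) % 8 = 5)
    (hco : IsCoprime (c ^ 2 + 4 * k) e) (G : MvPolynomial (Fin 6) (𝓞 K))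
    (hG : G.IsHomogeneous 2) (L : Type) [Field L] [NumberField L] [Algebra K L]
    (hL : Odd (Module.finrank K L))
    (P : (w : HeightOneSpectrum (𝓞 L)) → Fin 6 → w.adicCompletion L)
    (hP : ∀ w, P w ≠ 0 ∧ OnX (phi K w (c ^ 2 + 4 * k)) (phi K w e)
      (fun Q => eval Q (map (phi K w) G)) (P w)) :
    {w | ¬ Triv (phi K w (c ^ 2 + 4 * k)) (P w)}.Finite ∧
      Odd {w | ¬ Triv (phi K w (c ^ 2 + 4 * k)) (P w)}.ncard := by
  have hN' := norm_up (L := L) _ hN hL
  have hN2 : Ideal.absNorm (Ideal.span {algebraMap (𝓞 K) (𝓞 L) (c ^ 2 + 4 * k)}) % 2 = 1 := by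
    omega
  have key := fun w => places (K := K) w c k e hN2 hco G hG (hP w).1 (hP w).2.1 (hP w).2.2
  refine parity (algebraMap (𝓞 K) (𝓞 L) (c ^ 2 + 4 * k)) hN' _ ?_ ?_
  · intro w
    obtain ⟨h1, h2⟩ := key w
    rw [Set.mem_ofPred_eq, ← val_phi w]
    constructor
    · intro h
      have h3 : ∃ j : ℤ, Valued.v (phi K w (c ^ 2 + 4 * k)) = exp (2 * j + 1) := by
        by_contra hcon
        exact h (h2 hcon)
      exact ⟨h3, fun h4 => h ((h1 h3).2.2 h4)⟩
    · rintro ⟨h3, h4⟩ h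
      exact h4 ((h1 h3).2.1 h)
  · intro w hw
    rw [← val_phi w] at hw
    exact ((key w).1 hw).1

end Pool.Agent.H85.BM
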