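import Pool.Agent.H85.BM.Res

/-! # Norms from quadratic extensions of the completions -/

set_option autoImplicit false

namespace Pool.Agent.H85.BM

open NumberField IsDedekindDomain WithZero

section alg

variable {F : Type} [Field F] {a : F}

/-- `b` is of the form `s² - a t²` -/
def IsNorm (a b : F) : Prop := ∃ s t : F, s ^ 2 - a * t ^ 2 = b

lemma IsNorm.mul {b c : F} (hb : IsNorm a b) (hc : IsNorm a c) : IsNorm a (b * c) := by
  obtain ⟨s, t, rfl⟩ := hb
  obtain ⟨s', t', rfl⟩ := hc
  exact ⟨s * s' + a * t * t', s * t' + t * s', by ring⟩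

lemma isNorm_sq (x : F) : IsNorm a (x ^ 2) := ⟨x, 0, by ring⟩

lemma IsNorm.of_mul {b c : F} (hb0 : b ≠ 0) (hb : IsNorm a b) (hc : IsNorm a (b * c)) :
    IsNorm a c := by
  have h1 := (hb.mul hc).mul (isNorm_sq (a := a) b⁻¹)
  have h2 : b * (b * c) * b⁻¹ ^ 2 = c := by
    field_simp
  rwa [h2] at h1

lemma isNorm_of_sq (h2 : (2 : F) ≠ 0) (ha : a ≠ 0) {r : F} (hr : r ^ 2 = a) (b : F) :
    IsNorm a b := by
  have hr0 : r ≠ 0 := by
    rintro rfl
    apply ha
    rw [← hr]
    ring
  refine ⟨(b + 1) / 2, (b - 1) / (2 * r), ?_⟩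
  rw [← hr]
  field_simp
  ring

lemma isNorm_scale {ρ a₀ : F} (hρ : ρ ≠ 0) (ha : a = ρ ^ 2 * a₀) (b : F) :
    IsNorm a b ↔ IsNorm a₀ b := by
  constructor
  · rintro ⟨s, t, h⟩
    exact ⟨s, ρ * t, by rw [← h, ha]; ring⟩
  · rintro ⟨s, t, h⟩
    refine ⟨s, t / ρ, ?_⟩
    rw [← h, ha]
    field_simp

/-- the first two equations of the surface -/
def OnV (a : F) (P : Fin 6 → F) : Prop :=
  P 0 * P 1 = P 2 ^ 2 - a * P 3 ^ 2 ∧
  (P 0 + P 1) * (P 0 + 2 * P 1) = P 4 ^ 2 - a * P 5 ^ 2

/-- the numerators and the denominators -/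
def Num (P : Fin 6 → F) (n : F) : Prop := n = P 0 ∨ n = P 1

/-- the numerators and the denominators -/
def Den (P : Fin 6 → F) (m : F) : Prop := m = P 0 + P 1 ∨ m = P 0 + 2 * P 1

/-- the algebra is trivial at the point -/
def Triv (a : F) (P : Fin 6 → F) : Prop :=
  ∀ n m, Num P n → Den P m → n * m ≠ 0 → IsNorm a (n * m)

/-- the value does not depend on the choices -/
lemma wd {P : Fin 6 → F} (h : OnV a P) {n m n' m' : F} (hn : Num P n) (hm : Den P m)
    (hn' : Num P n') (hm' : Den P m') (h0 : n * m ≠ 0) (h1 : IsNorm a (n * m)) :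
    IsNorm a (n' * m') := by
  obtain ⟨e1, e2⟩ := h
  have h2 : IsNorm a (n * n') := by
    rcases hn with rfl | rfl <;> rcases hn' with rfl | rfl
    · rw [← sq]
      exact isNorm_sq _
    · exact ⟨_, _, e1.symm⟩
    · rw [mul_comm]
      exact ⟨_, _, e1.symm⟩
    · rw [← sq]
      exact isNorm_sq _
  have h3 : IsNorm a (m * m') := by
    rcases hm with rfl | rfl <;> rcases hm' with rfl | rfl
    · rw [← sq]
      exact isNorm_sq _
    · exact ⟨_, _, e2.symm⟩
    · rw [mul_comm]
      exact ⟨_, _, e2.symm⟩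
    · rw [← sq]
      exact isNorm_sq _
  refine IsNorm.of_mul h0 h1 ?_
  have h4 : n * m * (n' * m') = (n * n') * (m * m') := by ring
  rw [h4]
  exact h2.mul h3

/-- if all the products vanish, then `a` is a square -/
lemma sq_of_zero {P : Fin 6 → F} (h : OnV a P) (hP : P ≠ 0)
    (h0 : ∀ n m, Num P n → Den P m → n * m = 0) : ∃ r : F, r ^ 2 = a := by
  obtain ⟨e1, e2⟩ := h
  have hu : P 0 * (P 0 + P 1) = 0 := h0 _ _ (Or.inl rfl) (Or.inl rfl)
  have hv : P 1 * (P 0 + P 1) = 0 := h0 _ _ (Or.inr rfl) (Or.inl rfl)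
  have hu' : P 0 * (P 0 + 2 * P 1) = 0 := h0 _ _ (Or.inl rfl) (Or.inr rfl)
  have hv' : P 1 * (P 0 + 2 * P 1) = 0 := h0 _ _ (Or.inr rfl) (Or.inr rfl)
  have h1 : P 1 * P 1 = 0 := by linear_combination hv' - hv
  have h2 : P 1 = 0 := mul_self_eq_zero.1 h1
  have h3 : P 0 = 0 := by
    rw [h2, add_zero] at hu
    exact mul_self_eq_zero.1 hu
  rw [h2, h3] at e1 e2
  by_cases h5 : P 3 = 0
  · have h6 : P 2 = 0 := by
      rw [h5] at e1
      have : P 2 ^ 2 = 0 := by linear_combination -e1
      exact pow_eq_zero_iff two_ne_zero |>.1 this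
    by_cases h7 : P 5 = 0
    · exfalso
      apply hP
      have h8 : P 4 = 0 := by
        rw [h7] at e2
        have : P 4 ^ 2 = 0 := by linear_combination -e2
        exact pow_eq_zero_iff two_ne_zero |>.1 this
      funext i
      fin_cases i <;> assumption
    · refine ⟨P 4 / P 5, ?_⟩
      field_simp
      linear_combination -e2
  · refine ⟨P 2 / P 3, ?_⟩
    field_simp
    linear_combination -e1

end alg

section loc

variable {L : Type} [Field L] [NumberField L] (w : HeightOneSpectrum (𝓞 L))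

lemma exists_val (k : ℤ) : ∃ z : w.adicCompletion L, z ≠ 0 ∧ Valued.v z = exp k := by
  obtain ⟨z, hz⟩ := w.valuedAdicCompletion_surjective L (exp k)
  refine ⟨z, ?_, hz⟩
  rintro rfl
  rw [map_zero] at hz
  exact exp_ne_zero hz.symm

lemma two_ne_zero' : (2 : w.adicCompletion L) ≠ 0 := by
  have h : (2 : w.adicCompletion L) = algebraMap L (w.adicCompletion L) 2 := by
    rw [map_ofNat]
  rw [h, Ne, map_eq_zero]
  exact two_ne_zero

lemma v_two_le : Valued.v (2 : w.adicCompletion L) ≤ 1 := by
  have h : (2 : w.adicCompletion L) = 1 + 1 := by norm_num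
  rw [h]
  exact Valuation.map_add_le _ (map_one _).le (map_one _).le

variable {w} in
lemma v_mul_lt' {x y : w.adicCompletion L} (hx : Valued.v x ≤ 1) (hy : Valued.v y < 1) :
    Valued.v (x * y) < 1 := by
  rw [map_mul]
  exact lt_of_le_of_lt (mul_le_of_le_one_left' hx) hy

lemma v_mul_lt {x y : w.adicCompletion L} (hx : Valued.v x ≤ 1) (hy : Valued.v y < 1) :
    Valued.v (x * y) < 1 := v_mul_lt' hx hy

lemma v_add_one {x y : w.adicCompletion L} (hx : Valued.v x < 1) (hy : Valued.v y = 1) :
    Valued.v (x + y) = 1 := by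
  rw [← hy] at hx
  exact (Valuation.map_add_eq_of_lt_right _ hx).trans hy

lemma sq_one (x : w.adicCompletion L) (h : Valued.v (x ^ 2) = 1) : Valued.v x = 1 := by
  have hx : x ≠ 0 := by
    rintro rfl
    rw [zero_pow two_ne_zero, map_zero] at h
    exact zero_ne_one h
  obtain ⟨k, hk⟩ := exists_exp w x hx
  rw [map_pow, hk, ← exp_nsmul, ← exp_zero, exp_inj] at h
  rw [hk, ← exp_zero, exp_inj]
  simpa using h

variable [Finite (kk w)]

/-- unramified quadratic extensions -/
theorem unr (a ρ c k : w.adicCompletion L) (hρ : ρ ≠ 0) (ha : a = ρ ^ 2 * (c ^ 2 + 4 * k))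
    (hc : Valued.v c ≤ 1) (hk : Valued.v k ≤ 1) (ha0 : Valued.v (c ^ 2 + 4 * k) = 1) :
    (∀ b, IsNorm a b) ∨
      ∀ b, b ≠ 0 → (IsNorm a b ↔ ∃ m : ℤ, Valued.v b = exp (2 * m)) := by
  set a₀ := c ^ 2 + 4 * k with ha₀
  have h20 := two_ne_zero' w
  have h21 := v_two_le w
  have ha₀0 : a₀ ≠ 0 := by
    intro h
    rw [h, map_zero] at ha0
    exact zero_ne_one ha0
  simp only [isNorm_scale hρ ha]
  by_cases hsq : ∃ r : w.adicCompletion L, r ^ 2 = a₀
  · obtain ⟨r, hr⟩ := hsq
    exact Or.inl fun b => isNorm_of_sq h20 ha₀0 hr b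
  right
  -- anisotropy
  have haniso1 : ∀ x : w.adicCompletion L, Valued.v x ≤ 1 → Valued.v (x ^ 2 + c * x - k) = 1 := by
    intro x hx
    have h1 : Valued.v (x ^ 2 + c * x - k) ≤ 1 := by
      refine Valuation.map_sub_le _ (Valuation.map_add_le _ ?_ ?_) hk
      · rw [map_pow]
        exact pow_le_one' hx 2
      · rw [map_mul]
        exact mul_le_one' hc hx
    by_contra h2
    have h3 : Valued.v (x ^ 2 + c * x - k) < 1 := lt_of_le_of_ne h1 h2
    have h4 : Valued.v (2 * x + c) = 1 := by
      have h5 : (2 * x + c) ^ 2 = 4 * (x ^ 2 + c * x - k) + a₀ := by rw [ha₀]; ring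
      have h6 : Valued.v (4 * (x ^ 2 + c * x - k)) < 1 := by
        have h7 : (4 : w.adicCompletion L) = 2 * 2 := by norm_num
        rw [h7]
        refine v_mul_lt w ?_ h3
        rw [map_mul]
        exact mul_le_one' h21 h21
      have h7 : Valued.v ((2 * x + c) ^ 2) = 1 := by
        rw [h5]
        exact v_add_one w h6 ha0
      exact sq_one w _ h7
    obtain ⟨y, -, hy⟩ := quad w _ _ h4 h3
    apply hsq
    refine ⟨2 * (x + y) + c, ?_⟩
    rw [ha₀]
    linear_combination 4 * hy
  have haniso : ∀ X T : w.adicCompletion L, (X ≠ 0 ∨ T ≠ 0) →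
      ∃ m : ℤ, Valued.v (X ^ 2 + c * X * T - k * T ^ 2) = exp (2 * m) := by
    intro X T hXT
    have key : ∀ z y : w.adicCompletion L, z ≠ 0 → Valued.v y = 1 →
        ∃ m : ℤ, Valued.v (z ^ 2 * y) = exp (2 * m) := by
      intro z y hz hy
      obtain ⟨m, hm⟩ := exists_exp w z hz
      refine ⟨m, ?_⟩
      rw [map_mul, hy, mul_one, map_pow, hm, ← exp_nsmul]
      congr 1
    by_cases h1 : Valued.v X ≤ Valued.v T
    · have hT : T ≠ 0 := by
        rintro rfl
        rw [map_zero, le_zero_iff, Valuation.zero_iff] at h1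
        rcases hXT with h | h
        · exact h h1
        · exact h rfl
      have h2 : Valued.v (X / T) ≤ 1 := by
        rw [map_div₀]
        exact div_le_one_of_le₀ h1 zero_le
      have h3 := key T _ hT (haniso1 _ h2)
      have h4 : T ^ 2 * ((X / T) ^ 2 + c * (X / T) - k) = X ^ 2 + c * X * T - k * T ^ 2 := by
        field_simp
      rwa [h4] at h3
    · rw [not_le] at h1
      have hX : X ≠ 0 := by
        rintro rfl
        rw [map_zero] at h1
        exact not_lt_zero h1
      have h2 : Valued.v (T / X) < 1 := by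
        rw [map_div₀]
        exact (div_lt_one₀ (lt_of_le_of_lt zero_le h1)).2 h1
      have h5 : Valued.v (1 + (c * (T / X) - k * (T / X) ^ 2)) = 1 := by
        have h6 : Valued.v (c * (T / X) - k * (T / X) ^ 2) < 1 := by
          refine lt_of_le_of_lt (Valuation.map_sub_le _ (g := Valued.v (T / X)) ?_ ?_) h2
          · rw [map_mul]
            exact mul_le_of_le_one_left' hc
          · rw [map_mul, map_pow, sq]
            calc _ ≤ 1 * (Valued.v (T / X) * 1) :=
                  mul_le_mul' hk (mul_le_mul' le_rfl h2.le)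
              _ = _ := by rw [one_mul, mul_one]
        exact Valuation.map_one_add_of_lt _ h6
      have h3 := key X _ hX h5
      have h4 : X ^ 2 * (1 + (c * (T / X) - k * (T / X) ^ 2)) =
          X ^ 2 + c * X * T - k * T ^ 2 := by
        field_simp
        ring
      rwa [h4] at h3
  intro b hb
  constructor
  · rintro ⟨s, t, h⟩
    have h1 : (s - c * t) ^ 2 + c * (s - c * t) * (2 * t) - k * (2 * t) ^ 2 = b := by
      rw [← h, ha₀]
      ring
    rw [← h1]
    apply haniso
    by_contra hcon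
    push Not at hcon
    obtain ⟨h3, h4⟩ := hcon
    have h5 : t = 0 := by
      rcases mul_eq_zero.1 h4 with h | h
      · exact absurd h h20
      · exact h
    rw [h5, mul_zero, sub_zero] at h3
    apply hb
    rw [← h, h5, h3]
    ring
  · rintro ⟨m, hm⟩
    obtain ⟨z, hz0, hz⟩ := exists_val w m
    have hb1 : Valued.v (b / z ^ 2) = 1 := by
      rw [map_div₀, map_pow, hm, hz, ← exp_nsmul, ← exp_sub]
      simp
    have hbz : b = (b / z ^ 2) * z ^ 2 := by field_simp
    rw [hbz]
    refine IsNorm.mul ?_ (isNorm_sq z)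
    set b' := b / z ^ 2 with hb'
    have hb'0 : b' ≠ 0 := div_ne_zero hb (pow_ne_zero _ hz0)
    rcases lt_or_eq_of_le h21 with h2 | h2
    · -- residue characteristic two
      have hc1 : Valued.v c = 1 := by
        have h3 : c ^ 2 = a₀ - 4 * k := by rw [ha₀]; ring
        have h4 : Valued.v (4 * k) < 1 := by
          have h7 : (4 : w.adicCompletion L) * k = (2 * k) * 2 := by ring
          rw [h7]
          refine v_mul_lt w ?_ h2
          rw [map_mul]
          exact mul_le_one' h21 hk
        have h5 : Valued.v (c ^ 2) = 1 := by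
          have h6 : c ^ 2 = -(4 * k) + a₀ := by rw [h3]; ring
          rw [h6]
          exact v_add_one w (by rw [Valuation.map_neg]; exact h4) ha0
        exact sq_one w _ h5
      obtain ⟨s, hs, hs1⟩ := F_sq w h2 b' hb1.le
      have hs2 : Valued.v s = 1 := by
        have h3 : s ^ 2 = b' + (s ^ 2 - b') := by ring
        have h4 : Valued.v (s ^ 2) = 1 := by
          rw [h3, add_comm]
          exact v_add_one w hs1 hb1
        exact sq_one w _ h4
      obtain ⟨y, hy, hy2⟩ := quad w (-(c * s)) (-(k * (s ^ 2 - b')))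
        (by rw [Valuation.map_neg, map_mul, hc1, hs2, one_mul]) (by
          rw [Valuation.map_neg]
          exact v_mul_lt w hk hs1)
      have h5 : y - c * s ≠ 0 := by
        intro h
        have h6 : y = c * s := sub_eq_zero.1 h
        rw [h6, map_mul, hc1, hs2, one_mul] at hy
        exact lt_irrefl _ hy
      set T := (s ^ 2 - b') / (y - c * s) with hT
      have h6 : k * T = y := by
        rw [hT, mul_div_assoc', div_eq_iff h5]
        linear_combination -hy2
      have h7 : T * (y - c * s) = s ^ 2 - b' := by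
        rw [hT]
        exact div_mul_cancel₀ _ h5
      refine ⟨s + c * T / 2, T / 2, ?_⟩
      rw [ha₀]
      field_simp
      linear_combination (-4 * T) * h6 - 4 * h7
    · -- odd residue characteristic
      obtain ⟨s, t, hs, ht, hst⟩ := F_repr w h2 a₀ b' ha0 hb1.le
      by_cases hs1 : Valued.v s = 1
      · obtain ⟨r, -, hr⟩ := sqrt_unit w h2 (b' + a₀ * t ^ 2) s hs1 (by
          have : s ^ 2 - (b' + a₀ * t ^ 2) = s ^ 2 - a₀ * t ^ 2 - b' := by ring
          rwa [this])
        exact ⟨r, t, by rw [hr]; ring⟩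
      · have hs2 : Valued.v s < 1 := lt_of_le_of_ne hs hs1
        have hs3 : Valued.v (s ^ 2) < 1 := by
          rw [sq]
          exact v_mul_lt w hs hs2
        have h3 : Valued.v (a₀ * t ^ 2 + b') < 1 := by
          have h4 : a₀ * t ^ 2 + b' = s ^ 2 - (s ^ 2 - a₀ * t ^ 2 - b') := by ring
          rw [h4]
          exact Valuation.map_sub_lt _ hs3 hst
        have h4 : Valued.v (t ^ 2 - (-b' / a₀)) < 1 := by
          have h5 : t ^ 2 - (-b' / a₀) = (a₀ * t ^ 2 + b') / a₀ := by
            field_simp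
            ring
          rw [h5, map_div₀, ha0, div_one]
          exact h3
        have h5 : Valued.v (-b' / a₀) = 1 := by
          rw [map_div₀, Valuation.map_neg, hb1, ha0, div_one]
        have ht1 : Valued.v t = 1 := by
          have h6 : t ^ 2 = (-b' / a₀) + (t ^ 2 - (-b' / a₀)) := by ring
          have h7 : Valued.v (t ^ 2) = 1 := by
            rw [h6, add_comm]
            exact v_add_one w h4 h5
          exact sq_one w _ h7
        obtain ⟨r, -, hr⟩ := sqrt_unit w h2 (-b' / a₀) t ht1 h4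
        refine ⟨0, r, ?_⟩
        rw [hr]
        field_simp
        ring

end loc

end Pool.Agent.H85.BM
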