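import Pool.Agent.H85.BM.Main

/-! # Local points -/

set_option autoImplicit false

namespace Pool.Agent.H85.BM

open NumberField IsDedekindDomain WithZero MvPolynomial

section sq

variable {L : Type} [Field L] [NumberField L] (w : HeightOneSpectrum (𝓞 L))

lemma v_nat (n : ℕ) : Valued.v (n : w.adicCompletion L) ≤ 1 := by
  induction n with
  | zero => rw [Nat.cast_zero, map_zero]; exact zero_le_one
  | succ n ih =>
    rw [Nat.cast_succ]
    exact Valuation.map_add_le _ ih (map_one _).le

lemma v_int (n : ℤ) : Valued.v (n : w.adicCompletion L) ≤ 1 := by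
  obtain ⟨m, rfl | rfl⟩ := n.eq_nat_or_neg
  · rw [Int.cast_natCast]
    exact v_nat w m
  · rw [Int.cast_neg, Valuation.map_neg, Int.cast_natCast]
    exact v_nat w m

/-- the product of two non-squares is a square in a finite field -/
lemma ff_prod {κ : Type} [Field κ] [Finite κ] (a b : κ) :
    IsSquare a ∨ IsSquare b ∨ IsSquare (a * b) := by
  classical
  have := Fintype.ofFinite κ
  by_cases ha : IsSquare a
  · exact Or.inl ha
  by_cases hb : IsSquare b
  · exact Or.inr (Or.inl hb)
  right; right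
  have h2 : ringChar κ ≠ 2 := fun h => ha (FiniteField.isSquare_of_char_two h a)
  have ha0 : a ≠ 0 := fun h => ha (by rw [h]; exact IsSquare.zero)
  have hb0 : b ≠ 0 := fun h => hb (by rw [h]; exact IsSquare.zero)
  rw [FiniteField.isSquare_iff h2 (mul_ne_zero ha0 hb0), mul_pow]
  rcases FiniteField.pow_dichotomy h2 ha0 with h | h
  · exact absurd ((FiniteField.isSquare_iff h2 ha0).2 h) ha
  · rcases FiniteField.pow_dichotomy h2 hb0 with h' | h'
    · exact absurd ((FiniteField.isSquare_iff h2 hb0).2 h') hb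
    · rw [h, h']
      norm_num

/-- a unit which is a square in the residue field is a square -/
lemma lift_sq (h2 : Valued.v (2 : w.adicCompletion L) = 1) (b : OO w)
    (hb : Valued.v (b : w.adicCompletion L) = 1)
    (h : IsSquare (IsLocalRing.residue (OO w) b)) :
    ∃ r : w.adicCompletion L, r ^ 2 = b := by
  obtain ⟨z, hz⟩ := h
  obtain ⟨s, rfl⟩ := IsLocalRing.residue_surjective z
  have h7 : IsLocalRing.residue (OO w) (s ^ 2 - b) = 0 := by
    rw [map_sub, map_pow, sub_eq_zero, sq, ← hz]
  rw [res_zero] at h7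
  have h8 : Valued.v ((s : w.adicCompletion L) ^ 2 - b) < 1 := h7
  have h9 : Valued.v (s : w.adicCompletion L) = 1 := by
    apply sq_one w
    have h3 : (s : w.adicCompletion L) ^ 2 = (s ^ 2 - b) + b := by ring
    rw [h3]
    exact v_add_one w h8 hb
  obtain ⟨r, -, hr⟩ := sqrt_unit w h2 b s h9 h8
  exact ⟨r, hr⟩

theorem three_squares : ∃ r : w.adicCompletion L, r ^ 2 = 5 ∨ r ^ 2 = -11 ∨ r ^ 2 = -55 := by
  have v5 : Valued.v (5 : w.adicCompletion L) ≤ 1 := by exact_mod_cast v_nat w 5
  have v11 : Valued.v (11 : w.adicCompletion L) ≤ 1 := by exact_mod_cast v_nat w 11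
  rcases lt_or_eq_of_le (v_two_le w) with h2 | h2
  · -- above two
    obtain ⟨y, -, hy⟩ := quad w 1 14 (map_one _) (by
      have h3 : (14 : w.adicCompletion L) = (7 : ℕ) * 2 := by norm_num
      rw [h3]
      exact v_mul_lt w (v_nat w 7) h2)
    refine ⟨2 * y + 1, Or.inr (Or.inr ?_)⟩
    linear_combination 4 * hy
  rcases lt_or_eq_of_le v5 with h5 | h5
  · -- above five
    obtain ⟨r, -, hr⟩ := sqrt_unit w h2 (-11) 2 h2 (by
      have h3 : (2 : w.adicCompletion L) ^ 2 - -11 = (3 : ℕ) * 5 := by norm_num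
      rw [h3]
      exact v_mul_lt w (v_nat w 3) h5)
    exact ⟨r, Or.inr (Or.inl hr)⟩
  rcases lt_or_eq_of_le v11 with h11 | h11
  · -- above eleven
    obtain ⟨r, -, hr⟩ := sqrt_unit w h2 5 4 (by
        have h3 : (4 : w.adicCompletion L) = 2 * 2 := by norm_num
        rw [h3, map_mul, h2, one_mul]) (by
      have h3 : (4 : w.adicCompletion L) ^ 2 - 5 = 11 := by norm_num
      rw [h3]
      exact h11)
    exact ⟨r, Or.inl hr⟩
  · -- the other places
    have c5 : (((5 : OO w) : OO w) : w.adicCompletion L) = 5 := rfl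
    have c11 : (((-11 : OO w) : OO w) : w.adicCompletion L) = -11 := rfl
    have c55 : (((5 * -11 : OO w) : OO w) : w.adicCompletion L) = 5 * -11 := rfl
    have h11' : Valued.v (-11 : w.adicCompletion L) = 1 := by rw [Valuation.map_neg, h11]
    have h55 : Valued.v (5 * -11 : w.adicCompletion L) = 1 := by
      rw [map_mul, h5, h11', one_mul]
    rcases ff_prod (IsLocalRing.residue (OO w) 5) (IsLocalRing.residue (OO w) (-11))
      with h | h | h
    · obtain ⟨r, hr⟩ := lift_sq w h2 5 (by rw [c5]; exact h5) h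
      exact ⟨r, Or.inl (by rw [hr, c5])⟩
    · obtain ⟨r, hr⟩ := lift_sq w h2 (-11) (by rw [c11]; exact h11') h
      exact ⟨r, Or.inr (Or.inl (by rw [hr, c11]))⟩
    · rw [← map_mul] at h
      obtain ⟨r, hr⟩ := lift_sq w h2 (5 * -11) (by rw [c55]; exact h55) h
      refine ⟨r, Or.inr (Or.inr ?_)⟩
      rw [hr, c55]
      norm_num

end sq

end Pool.Agent.H85.BM
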