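import Pool.Agent.H85.BM.Even

/-! # The value of the algebra at the ramified places -/

set_option autoImplicit false

namespace Pool.Agent.H85.BM

open NumberField IsDedekindDomain WithZero

section loc

variable {L : Type} [Field L] [NumberField L] (w : HeightOneSpectrum (𝓞 L))

lemma sq_lt_one {x : w.adicCompletion L} (h : Valued.v (x ^ 2) < 1) : Valued.v x < 1 := by
  by_cases hx : x = 0
  · rw [hx, map_zero]
    exact zero_lt_one
  obtain ⟨k, hk⟩ := exists_exp w x hx
  rw [map_pow, hk, ← exp_nsmul, ← exp_zero, exp_lt_exp] at h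
  rw [hk, ← exp_zero, exp_lt_exp]
  simp only [nsmul_eq_mul, Nat.cast_ofNat] at h
  omega

lemma sq_le_one {x : w.adicCompletion L} (h : Valued.v (x ^ 2) ≤ 1) : Valued.v x ≤ 1 := by
  by_cases hx : x = 0
  · rw [hx, map_zero]
    exact zero_le_one
  obtain ⟨k, hk⟩ := exists_exp w x hx
  rw [map_pow, hk, ← exp_nsmul, ← exp_zero, exp_le_exp] at h
  rw [hk, ← exp_zero, exp_le_exp]
  simp only [nsmul_eq_mul, Nat.cast_ofNat] at h
  omega

/-- unit norms from ramified quadratic extensions are squares in the residue field -/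
lemma ram_unit (h2 : Valued.v (2 : w.adicCompletion L) = 1) (a b : w.adicCompletion L) {j : ℤ}
    (ha : Valued.v a = exp (2 * j + 1)) (hb : Valued.v b = 1) :
    IsNorm a b ↔ ∃ η : w.adicCompletion L, Valued.v η ≤ 1 ∧ Valued.v (η ^ 2 - b) < 1 := by
  constructor
  · rintro ⟨s, t, h⟩
    have key : Valued.v (s ^ 2) ≤ 1 ∧ Valued.v (a * t ^ 2) < 1 := by
      have hodd : ∀ t : w.adicCompletion L, t ≠ 0 → ∃ k : ℤ,
          Valued.v (a * t ^ 2) = exp (2 * k + 1) := by
        intro t ht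
        obtain ⟨k, hk⟩ := exists_exp w t ht
        refine ⟨j + k, ?_⟩
        rw [map_mul, map_pow, ha, hk, ← exp_nsmul, ← exp_add]
        congr 1
        rw [nsmul_eq_mul]
        push_cast
        ring
      by_cases hs : s = 0
      · exfalso
        rw [hs] at h
        have ht : t ≠ 0 := by
          rintro rfl
          rw [← h] at hb
          simp at hb
        obtain ⟨k, hk⟩ := hodd t ht
        have h1 : b = -(a * t ^ 2) := by rw [← h]; ring
        rw [h1, Valuation.map_neg, hk, ← exp_zero, exp_inj] at hb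
        omega
      by_cases ht : t = 0
      · rw [ht] at h ⊢
        have h1 : s ^ 2 = b := by rw [← h]; ring
        rw [h1, hb]
        refine ⟨le_rfl, ?_⟩
        rw [zero_pow two_ne_zero, mul_zero, map_zero]
        exact zero_lt_one
      obtain ⟨k, hk⟩ := hodd t ht
      obtain ⟨m, hm⟩ := exists_exp w s hs
      have hm2 : Valued.v (s ^ 2) = exp (2 * m) := by
        rw [map_pow, hm, ← exp_nsmul]
        congr 1
      have h3 := tri w (x := b) (y := a * t ^ 2) (z := s ^ 2) (by rw [← h]; ring)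
        (i := 0) (by rw [hb, exp_zero]) hk hm2
      rw [hm2, hk, ← exp_zero, exp_le_exp, exp_lt_exp]
      omega
    refine ⟨s, sq_le_one w key.1, ?_⟩
    have h1 : s ^ 2 - b = a * t ^ 2 := by rw [← h]; ring
    rw [h1]
    exact key.2
  · rintro ⟨η, hη, h⟩
    have h1 : Valued.v η = 1 := by
      apply sq_one w
      have h3 : η ^ 2 = (η ^ 2 - b) + b := by ring
      rw [h3]
      exact v_add_one w h hb
    obtain ⟨r, -, hr⟩ := sqrt_unit w h2 b η h1 h
    exact ⟨r, 0, by rw [hr]; ring⟩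

lemma onV_smul {a : w.adicCompletion L} {P : Fin 6 → w.adicCompletion L} (h : OnV a P)
    (z : w.adicCompletion L) : OnV a (z • P) := by
  obtain ⟨e1, e2⟩ := h
  refine ⟨?_, ?_⟩
  · simp only [Pi.smul_apply, smul_eq_mul]
    linear_combination z ^ 2 * e1
  · simp only [Pi.smul_apply, smul_eq_mul]
    linear_combination z ^ 2 * e2

lemma triv_of_smul {a : w.adicCompletion L} {P : Fin 6 → w.adicCompletion L}
    {z : w.adicCompletion L} (hz : z ≠ 0) (h : Triv a (z • P)) : Triv a P := by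
  intro n m hn hm hnm
  have hn' : Num (z • P) (z * n) := by
    rcases hn with h | h
    · exact Or.inl (by rw [h]; rfl)
    · exact Or.inr (by rw [h]; rfl)
  have hm' : Den (z • P) (z * m) := by
    rcases hm with h | h
    · refine Or.inl ?_
      rw [h, Pi.smul_apply, Pi.smul_apply, smul_eq_mul, smul_eq_mul]
      ring
    · refine Or.inr ?_
      rw [h, Pi.smul_apply, Pi.smul_apply, smul_eq_mul, smul_eq_mul]
      ring
  have h1 := h _ _ hn' hm' (by
    have : z * n * (z * m) = z ^ 2 * (n * m) := by ring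
    rw [this]
    exact mul_ne_zero (pow_ne_zero _ hz) hnm)
  have h2 : z * n * (z * m) = z ^ 2 * (n * m) := by ring
  rw [h2] at h1
  exact IsNorm.of_mul (pow_ne_zero _ hz) (isNorm_sq z) h1

lemma triv_smul {a : w.adicCompletion L} {P : Fin 6 → w.adicCompletion L}
    {z : w.adicCompletion L} (hz : z ≠ 0) : Triv a (z • P) ↔ Triv a P := by
  refine ⟨triv_of_smul w hz, fun h => ?_⟩
  apply triv_of_smul w (inv_ne_zero hz)
  rwa [smul_smul, inv_mul_cancel₀ hz, one_smul]

variable [Finite (kk w)]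

/-- the normalised case -/
theorem ram_aux (h2 : Valued.v (2 : w.adicCompletion L) = 1) (a e g : w.adicCompletion L) {j : ℤ}
    (ha : Valued.v a = exp (2 * j + 1)) (he : Valued.v e = 1)
    {P : Fin 6 → w.adicCompletion L} (h : OnV a P)
    (h3 : e * (P 2 ^ 2 - P 4 ^ 2) = a * g) (hg : Valued.v (a * g) < 1)
    (hle : ∀ i, i = 0 ∨ i = 1 ∨ i = 2 ∨ i = 4 → Valued.v (P i) ≤ 1)
    (heq : ∃ i, (i = 0 ∨ i = 1 ∨ i = 2 ∨ i = 4) ∧ Valued.v (P i) = 1)
    (hy : Valued.v (a * P 3 ^ 2) < 1) (hy' : Valued.v (a * P 5 ^ 2) < 1) :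
    Nat.card (kk w) % 4 = 1 ∧ (Triv a P ↔ Nat.card (kk w) % 8 = 1) := by
  obtain ⟨e1, e2⟩ := h
  have hu := hle 0 (by simp)
  have hv := hle 1 (by simp)
  have hx1 := hle 2 (by simp)
  have hx2 := hle 4 (by simp)
  have f3 : Valued.v (P 2 ^ 2 - P 4 ^ 2) < 1 := by
    have h4 : Valued.v (e * (P 2 ^ 2 - P 4 ^ 2)) < 1 := by rw [h3]; exact hg
    rwa [map_mul, he, one_mul] at h4
  have key : Valued.v ((P 0 + P 1) ^ 2 + P 1 ^ 2) < 1 := by
    have h4 : (P 0 + P 1) ^ 2 + P 1 ^ 2 =
        -(P 2 ^ 2 - P 4 ^ 2) + (a * P 3 ^ 2 - a * P 5 ^ 2) := by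
      linear_combination e2 - e1
    rw [h4]
    refine Valuation.map_add_lt _ ?_ (Valuation.map_sub_lt _ hy hy')
    rwa [Valuation.map_neg]
  have hv1 : Valued.v (P 1) = 1 := by
    by_contra hcon
    have hv' : Valued.v (P 1) < 1 := lt_of_le_of_ne hv hcon
    have h4 : Valued.v (P 0 + P 1) < 1 := by
      apply sq_lt_one w
      have h5 : (P 0 + P 1) ^ 2 = ((P 0 + P 1) ^ 2 + P 1 ^ 2) - P 1 * P 1 := by ring
      rw [h5]
      exact Valuation.map_sub_lt _ key (v_mul_lt w hv hv')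
    have h5 : Valued.v (P 0) < 1 := by
      have h6 : P 0 = (P 0 + P 1) - P 1 := by ring
      rw [h6]
      exact Valuation.map_sub_lt _ h4 hv'
    have h6 : Valued.v (P 2) < 1 := by
      apply sq_lt_one w
      have h7 : P 2 ^ 2 = P 0 * P 1 + a * P 3 ^ 2 := by linear_combination -e1
      rw [h7]
      exact Valuation.map_add_lt _ (v_mul_lt w hu hv') hy
    have h7 : Valued.v (P 4) < 1 := by
      apply sq_lt_one w
      have h8 : P 4 ^ 2 = P 2 ^ 2 - (P 2 ^ 2 - P 4 ^ 2) := by ring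
      rw [h8]
      refine Valuation.map_sub_lt _ ?_ f3
      rw [sq]
      exact v_mul_lt w hx1 h6
    obtain ⟨i, hi, hi1⟩ := heq
    rcases hi with rfl | rfl | rfl | rfl
    · exact h5.ne hi1
    · exact hv'.ne hi1
    · exact h6.ne hi1
    · exact h7.ne hi1
  have hv0 : P 1 ≠ 0 := by
    intro h
    rw [h, map_zero] at hv1
    exact zero_ne_one hv1
  set ι := (P 0 + P 1) / P 1 with hι
  have hι2 : Valued.v (ι ^ 2 + 1) < 1 := by
    have h4 : ι ^ 2 + 1 = ((P 0 + P 1) ^ 2 + P 1 ^ 2) / P 1 ^ 2 := by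
      rw [hι]
      field_simp
    rw [h4, map_div₀, map_pow _ (P 1), hv1, one_pow, div_one]
    exact key
  have hι1 : Valued.v ι = 1 := by
    apply sq_one w
    have h4 : ι ^ 2 = (ι ^ 2 + 1) + (-1) := by ring
    rw [h4]
    exact v_add_one w hι2 (by rw [Valuation.map_neg, map_one])
  have hU : P 0 + P 1 = ι * P 1 := by
    rw [hι]
    field_simp
  have hι0 : ι ≠ 0 := by
    intro h
    rw [h, map_zero] at hι1
    exact zero_ne_one hι1
  obtain ⟨f1, f2⟩ := F_iota w h2 ι hι1.le hι2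
  refine ⟨f1, ?_⟩
  rw [← f2, ← ram_unit w h2 a ι ha hι1]
  have hprod : P 1 * (P 0 + P 1) = P 1 ^ 2 * ι := by
    rw [hU]
    ring
  constructor
  · intro h4
    have h5 := h4 _ _ (Or.inr rfl) (Or.inl rfl) (by
      rw [hprod]
      exact mul_ne_zero (pow_ne_zero _ hv0) hι0)
    rw [hprod] at h5
    exact IsNorm.of_mul (pow_ne_zero _ hv0) (isNorm_sq _) h5
  · intro h4 n m hn hm hnm
    refine wd ⟨e1, e2⟩ (Or.inr rfl) (Or.inl rfl) hn hm ?_ ?_
    · rw [hprod]
      exact mul_ne_zero (pow_ne_zero _ hv0) hι0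
    · rw [hprod]
      exact (isNorm_sq _).mul h4

/-- the general case -/
theorem ram (h2 : Valued.v (2 : w.adicCompletion L) = 1) (a e : w.adicCompletion L) {j : ℤ}
    (ha : Valued.v a = exp (2 * j + 1)) (ha1 : Valued.v a < 1) (he : Valued.v e = 1)
    (G : (Fin 6 → w.adicCompletion L) → w.adicCompletion L)
    (hG2 : ∀ (z : w.adicCompletion L) (Q : Fin 6 → w.adicCompletion L),
      G (z • Q) = z ^ 2 * G Q)
    (hG : ∀ Q : Fin 6 → w.adicCompletion L, (∀ i, Valued.v (a * Q i ^ 2) < 1) →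
      Valued.v (a * G Q) < 1)
    {P : Fin 6 → w.adicCompletion L} (hP : P ≠ 0) (h : OnV a P)
    (h3 : e * (P 2 ^ 2 - P 4 ^ 2) = a * G P) :
    Nat.card (kk w) % 4 = 1 ∧ (Triv a P ↔ Nat.card (kk w) % 8 = 1) := by
  classical
  have ha0 : a ≠ 0 := by
    intro h
    rw [h, map_zero] at ha
    exact exp_ne_zero ha.symm
  -- the largest of the four coordinates
  obtain ⟨k, hk, hmax⟩ := Finset.exists_max_image ({0, 1, 2, 4} : Finset (Fin 6))
    (fun i => Valued.v (P i)) ⟨0, by simp⟩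
  have hmem : ∀ i : Fin 6, i = 0 ∨ i = 1 ∨ i = 2 ∨ i = 4 →
      i ∈ ({0, 1, 2, 4} : Finset (Fin 6)) := by
    intro i hi
    simpa using hi
  have hmem' : ∀ i : Fin 6, i ∈ ({0, 1, 2, 4} : Finset (Fin 6)) →
      i = 0 ∨ i = 1 ∨ i = 2 ∨ i = 4 := by
    intro i hi
    simpa using hi
  have hanis : ∀ s t : w.adicCompletion L, s ^ 2 = a * t ^ 2 → s = 0 ∧ t = 0 := by
    intro s t hst
    by_cases ht : t = 0
    · refine ⟨?_, ht⟩
      rw [ht, zero_pow two_ne_zero, mul_zero] at hst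
      exact pow_eq_zero_iff two_ne_zero |>.1 hst
    · exfalso
      have hs : s ≠ 0 := by
        rintro rfl
        rw [zero_pow two_ne_zero] at hst
        exact mul_ne_zero ha0 (pow_ne_zero _ ht) hst.symm
      obtain ⟨k, hk⟩ := exists_exp w t ht
      obtain ⟨m, hm⟩ := exists_exp w s hs
      have h4 := congrArg Valued.v hst
      rw [map_mul, map_pow, map_pow, ha, hk, hm, ← exp_nsmul, ← exp_nsmul, ← exp_add,
        exp_inj] at h4
      simp only [nsmul_eq_mul, Nat.cast_ofNat] at h4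
      omega
  have hk0 : P k ≠ 0 := by
    intro hk0
    have hz : ∀ i ∈ ({0, 1, 2, 4} : Finset (Fin 6)), P i = 0 := by
      intro i hi
      have h4 := hmax i hi
      rw [hk0, map_zero, le_zero_iff, Valuation.zero_iff] at h4
      exact h4
    have z0 := hz 0 (by simp)
    have z1 := hz 1 (by simp)
    have z2 := hz 2 (by simp)
    have z4 := hz 4 (by simp)
    obtain ⟨e1, e2⟩ := h
    rw [z0, z2] at e1
    rw [z0, z1, z4] at e2
    have z3 := (hanis 0 (P 3) (by linear_combination -e1)).2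
    have z5 := (hanis 0 (P 5) (by linear_combination -e2)).2
    apply hP
    funext i
    fin_cases i <;> assumption
  obtain ⟨M, hM⟩ := exists_exp w _ hk0
  -- the normalised point
  set Q : Fin 6 → w.adicCompletion L := (P k)⁻¹ • P with hQ
  have hQi : ∀ i, Q i = P i / P k := by
    intro i
    rw [hQ, Pi.smul_apply, smul_eq_mul, div_eq_mul_inv, mul_comm]
  have hQV : OnV a Q := onV_smul w h _
  have hle : ∀ i, i = 0 ∨ i = 1 ∨ i = 2 ∨ i = 4 → Valued.v (Q i) ≤ 1 := by
    intro i hi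
    rw [hQi, map_div₀]
    exact div_le_one_of_le₀ (hmax i (hmem i hi)) zero_le
  have hk1 : Valued.v (Q k) = 1 := by
    rw [hQi, div_self hk0, map_one]
  have hbound : ∀ s t b : w.adicCompletion L, s ^ 2 - a * t ^ 2 = b → Valued.v s ≤ 1 →
      Valued.v b ≤ 1 → Valued.v (a * t ^ 2) < 1 := by
    intro s t b hst hs hb
    by_cases ht : t = 0
    · rw [ht, zero_pow two_ne_zero, mul_zero, map_zero]
      exact zero_lt_one
    obtain ⟨m, hm⟩ := exists_exp w t ht
    have h4 : a * t ^ 2 = s ^ 2 - b := by rw [← hst]; ring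
    have h5 : Valued.v (a * t ^ 2) ≤ 1 := by
      rw [h4]
      refine Valuation.map_sub_le _ ?_ hb
      rw [map_pow]
      exact pow_le_one' hs 2
    have h6 : Valued.v (a * t ^ 2) = exp (2 * (j + m) + 1) := by
      rw [map_mul, map_pow, ha, hm, ← exp_nsmul, ← exp_add]
      congr 1
      rw [nsmul_eq_mul]
      push_cast
      ring
    rw [h6, ← exp_zero, exp_le_exp] at h5
    rw [h6, ← exp_zero, exp_lt_exp]
    omega
  have hQ3 : Valued.v (a * Q 3 ^ 2) < 1 := by
    refine hbound _ _ _ hQV.1.symm (hle 2 (by simp)) ?_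
    rw [map_mul]
    exact mul_le_one' (hle 0 (by simp)) (hle 1 (by simp))
  have hQ5 : Valued.v (a * Q 5 ^ 2) < 1 := by
    refine hbound _ _ _ hQV.2.symm (hle 4 (by simp)) ?_
    rw [map_mul]
    have h20 := v_two_le w
    refine mul_le_one' (Valuation.map_add_le _ (hle 0 (by simp)) (hle 1 (by simp)))
      (Valuation.map_add_le _ (hle 0 (by simp)) ?_)
    rw [map_mul]
    exact mul_le_one' h20 (hle 1 (by simp))
  have hall : ∀ i, Valued.v (a * Q i ^ 2) < 1 := by
    have h4 : ∀ i, i = 0 ∨ i = 1 ∨ i = 2 ∨ i = 4 → Valued.v (a * Q i ^ 2) < 1 := by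
      intro i hi
      rw [mul_comm]
      refine v_mul_lt w ?_ ha1
      rw [map_pow]
      exact pow_le_one' (hle i hi) 2
    intro i
    fin_cases i
    · exact h4 _ (by simp)
    · exact h4 _ (by simp)
    · exact h4 _ (by simp)
    · exact hQ3
    · exact h4 _ (by simp)
    · exact hQ5
  have h3' : e * (Q 2 ^ 2 - Q 4 ^ 2) = a * G Q := by
    rw [hQ, hG2]
    simp only [Pi.smul_apply, smul_eq_mul]
    linear_combination (P k)⁻¹ ^ 2 * h3
  have h5 := ram_aux w h2 a e (G Q) ha he hQV h3' (hG Q hall) hle ⟨k, hmem' k hk, hk1⟩ hQ3 hQ5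
  refine ⟨h5.1, ?_⟩
  rw [← h5.2, hQ]
  exact (triv_smul w (inv_ne_zero hk0)).symm

end loc

end Pool.Agent.H85.BM
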