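import Pool.Agent.H85.BM.Hens

/-! # Facts about the residue fields -/

set_option autoImplicit false

namespace Pool.Agent.H85.BM

open NumberField IsDedekindDomain WithZero Polynomial

section ff

variable {κ : Type} [Field κ] [Finite κ]

omit [Finite κ] in
lemma card_units : Nat.card κˣ = Nat.card κ - 1 := Nat.card_units κ

/-- a square root of `-1` and its square roots -/
lemma ff_iota (h2 : (2 : κ) ≠ 0) (ι : κ) (h : ι ^ 2 = -1) :
    Nat.card κ % 4 = 1 ∧ (IsSquare ι ↔ Nat.card κ % 8 = 1) := by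
  have h11 : (1 : κ) ≠ -1 := by
    intro h1
    apply h2
    linear_combination h1
  have hι0 : ι ≠ 0 := by
    rintro rfl
    rw [zero_pow two_ne_zero] at h
    exact one_ne_zero (neg_eq_zero.1 h.symm)
  have hq : 1 < Nat.card κ := Finite.one_lt_card
  set u : κˣ := Units.mk0 ι hι0 with hu
  have hu2 : u ^ 2 = -1 := Units.ext (by simpa [hu] using h)
  have hu21 : (-1 : κˣ) ≠ 1 := by
    intro h1
    apply h11
    have := congrArg Units.val h1
    simpa using this.symm
  have ho : orderOf u = 2 ^ (1 + 1) := by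
    apply orderOf_eq_prime_pow
    · rw [pow_one, hu2]
      exact hu21
    · calc u ^ 2 ^ (1 + 1) = (u ^ 2) ^ 2 := by rw [← pow_mul]; norm_num
        _ = 1 := by rw [hu2]; simp
  have hdvd : orderOf u ∣ Nat.card κˣ := orderOf_dvd_natCard u
  rw [ho, card_units] at hdvd
  have h4 : Nat.card κ % 4 = 1 := by
    obtain ⟨m, hm⟩ := hdvd
    omega
  refine ⟨h4, ?_, ?_⟩
  · rintro ⟨η, hη⟩
    have hη0 : η ≠ 0 := by
      rintro rfl
      apply hι0
      rw [hη, zero_mul]
    set z : κˣ := Units.mk0 η hη0 with hz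
    have hz2 : z ^ 2 = u := Units.ext (by simp [hz, hu, hη, sq])
    have ho8 : orderOf z = 2 ^ (2 + 1) := by
      apply orderOf_eq_prime_pow
      · have : z ^ 2 ^ 2 = u ^ 2 := by rw [← hz2, ← pow_mul]; norm_num
        rw [this, hu2]
        exact hu21
      · have : z ^ 2 ^ (2 + 1) = (u ^ 2) ^ 2 := by rw [← hz2, ← pow_mul, ← pow_mul]; norm_num
        rw [this, hu2]
        simp
    have hdvd : orderOf z ∣ Nat.card κˣ := orderOf_dvd_natCard z
    rw [ho8, card_units] at hdvd
    obtain ⟨m, hm⟩ := hdvd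
    omega
  · intro h8
    obtain ⟨g, hg⟩ := IsCyclic.exists_generator (α := κˣ)
    have hgo : orderOf g = Nat.card κˣ := orderOf_eq_card_of_forall_mem_zpowers hg
    have h8' : 8 ∣ orderOf g := by
      rw [hgo, card_units]
      omega
    have hg0 : orderOf g ≠ 0 := by
      rw [hgo, card_units]
      omega
    have ho8 := orderOf_pow_orderOf_div hg0 h8'
    set z := g ^ (orderOf g / 8) with hz
    have hz8 : z ^ 8 = 1 := by
      rw [← ho8]
      exact pow_orderOf_eq_one z
    have hz4 : z ^ 4 ≠ 1 := by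
      intro h1
      have := orderOf_dvd_of_pow_eq_one h1
      rw [ho8] at this
      omega
    have h1 : ((z : κ) ^ 4) ^ 2 = 1 := by
      rw [← pow_mul]
      have := congrArg Units.val hz8
      simpa using this
    have h2' : (z : κ) ^ 4 ≠ 1 := by
      intro h3
      apply hz4
      exact Units.ext (by simpa using h3)
    have h3 : (z : κ) ^ 4 = -1 := by
      have h4 : ((z : κ) ^ 4 - 1) * ((z : κ) ^ 4 + 1) = 0 := by linear_combination h1
      rcases mul_eq_zero.1 h4 with h5 | h5
      · exact absurd (sub_eq_zero.1 h5) h2'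
      · exact eq_neg_of_add_eq_zero_left h5
    have h5 : ι = (z : κ) ^ 2 ∨ ι = -(z : κ) ^ 2 := by
      apply sq_eq_sq_iff_eq_or_eq_neg.1
      rw [h, ← h3]
      ring
    rcases h5 with h5 | h5
    · exact ⟨z, by rw [h5]; ring⟩
    · refine ⟨(z : κ) ^ 3, ?_⟩
      rw [h5]
      linear_combination (-(z : κ) ^ 2) * h3

/-- the quadratic form `s² - a t²` represents everything in odd characteristic -/
lemma ff_repr (h2 : (2 : κ) ≠ 0) (a b : κ) (ha : a ≠ 0) : ∃ s t : κ, s ^ 2 - a * t ^ 2 = b := by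
  have := Fintype.ofFinite κ
  have hodd : Fintype.card κ % 2 = 1 := by
    have h3 : ringChar κ ≠ 2 := by
      intro h
      apply h2
      have := ringChar.Nat.cast_ringChar (R := κ)
      rw [h] at this
      exact_mod_cast this
    exact FiniteField.odd_card_of_char_ne_two h3
  have hdeg : (C (-a) * X ^ 2 + C (-b) : κ[X]).degree = 2 := by
    have : (C (-a) * X ^ 2 + C (-b) : κ[X]) = C (-a) * X ^ 2 + C 0 * X + C (-b) := by simp
    rw [this]
    exact degree_quadratic (neg_ne_zero.2 ha)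
  obtain ⟨s, t, h⟩ := FiniteField.exists_root_sum_quadratic (f := (X ^ 2 : κ[X]))
    (g := C (-a) * X ^ 2 + C (-b)) (degree_X_pow 2) hdeg hodd
  refine ⟨s, t, ?_⟩
  simp only [eval_add, eval_mul, eval_C, eval_pow, eval_X] at h
  linear_combination h

lemma ff_sq (h2 : (2 : κ) = 0) (b : κ) : ∃ s : κ, s ^ 2 = b := by
  have := Fintype.ofFinite κ
  have h3 : ringChar κ = 2 := by
    have h4 : ringChar κ ∣ 2 := ringChar.dvd (by exact_mod_cast h2)
    rcases (Nat.dvd_prime Nat.prime_two).1 h4 with h5 | h5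
    · exfalso
      have := CharP.ringChar_ne_one (R := κ)
      exact this h5
    · exact h5
  obtain ⟨s, hs⟩ := FiniteField.isSquare_of_char_two h3 b
  exact ⟨s, by rw [hs, sq]⟩

end ff

section res

variable {L : Type} [Field L] [NumberField L] (w : HeightOneSpectrum (𝓞 L))

/-- the integers of the completion -/
abbrev OO : Type := w.adicCompletionIntegers L

/-- the residue field -/
abbrev kk : Type := IsLocalRing.ResidueField (OO w)

lemma mem_max (a : OO w) : a ∈ IsLocalRing.maximalIdeal (OO w) ↔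
    Valued.v (a : w.adicCompletion L) < 1 := by
  rw [IsLocalRing.mem_maximalIdeal, mem_nonunits_iff,
    HeightOneSpectrum.adicCompletionIntegers.isUnit_iff_valued_eq_one]
  have h3 : Valued.v (a : w.adicCompletion L) ≤ 1 :=
    (HeightOneSpectrum.mem_adicCompletionIntegers _ _ _).1 a.2
  exact ⟨fun h => lt_of_le_of_ne h3 h, fun h => h.ne⟩

/-- an element of the completion as an integer -/
def toO (x : w.adicCompletion L) (hx : Valued.v x ≤ 1) : OO w :=
  ⟨x, (HeightOneSpectrum.mem_adicCompletionIntegers _ _ _).2 hx⟩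

@[simp] lemma toO_coe (x : w.adicCompletion L) (hx : Valued.v x ≤ 1) :
    ((toO w x hx : OO w) : w.adicCompletion L) = x := rfl

lemma val_le (x : OO w) : Valued.v (x : w.adicCompletion L) ≤ 1 :=
  (HeightOneSpectrum.mem_adicCompletionIntegers _ _ _).1 x.2

lemma res_zero (a : OO w) : IsLocalRing.residue (OO w) a = 0 ↔
    Valued.v (a : w.adicCompletion L) < 1 := by
  rw [IsLocalRing.residue_eq_zero_iff, mem_max]

lemma two_ne (h2 : Valued.v (2 : w.adicCompletion L) = 1) : (2 : kk w) ≠ 0 := by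
  intro h
  have h1 : IsLocalRing.residue (OO w) 2 = 0 := by rw [map_ofNat]; exact h
  rw [res_zero] at h1
  have h3 : ((2 : OO w) : w.adicCompletion L) = 2 := rfl
  rw [h3, h2] at h1
  exact lt_irrefl _ h1

variable [Finite (kk w)]

lemma F_iota (h2 : Valued.v (2 : w.adicCompletion L) = 1) (ι : w.adicCompletion L)
    (hι : Valued.v ι ≤ 1) (h : Valued.v (ι ^ 2 + 1) < 1) :
    Nat.card (kk w) % 4 = 1 ∧
      ((∃ η : w.adicCompletion L, Valued.v η ≤ 1 ∧ Valued.v (η ^ 2 - ι) < 1) ↔
        Nat.card (kk w) % 8 = 1) := by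
  set i : kk w := IsLocalRing.residue (OO w) (toO w ι hι) with hi
  have h1 : i ^ 2 = -1 := by
    have h3 : IsLocalRing.residue (OO w) (toO w ι hι ^ 2 + 1) = 0 := by
      rw [res_zero]
      exact h
    rw [map_add, map_pow, map_one] at h3
    exact eq_neg_of_add_eq_zero_left h3
  obtain ⟨h4, h5⟩ := ff_iota (two_ne w h2) i h1
  refine ⟨h4, ?_⟩
  rw [← h5]
  constructor
  · rintro ⟨η, hη, h6⟩
    refine ⟨IsLocalRing.residue (OO w) (toO w η hη), ?_⟩
    have h7 : IsLocalRing.residue (OO w) (toO w η hη ^ 2 - toO w ι hι) = 0 := by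
      rw [res_zero]
      exact h6
    rw [map_sub, map_pow, sub_eq_zero] at h7
    rw [← sq, h7]
  · rintro ⟨z, hz⟩
    obtain ⟨y, rfl⟩ := IsLocalRing.residue_surjective z
    refine ⟨y, val_le w y, ?_⟩
    have h7 : IsLocalRing.residue (OO w) (y ^ 2 - toO w ι hι) = 0 := by
      rw [map_sub, map_pow, sub_eq_zero, sq, ← hz]
    rw [res_zero] at h7
    exact h7

lemma F_repr (h2 : Valued.v (2 : w.adicCompletion L) = 1) (a b : w.adicCompletion L)
    (ha : Valued.v a = 1) (hb : Valued.v b ≤ 1) : ∃ s t : w.adicCompletion L,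
    Valued.v s ≤ 1 ∧ Valued.v t ≤ 1 ∧ Valued.v (s ^ 2 - a * t ^ 2 - b) < 1 := by
  have ha0 : IsLocalRing.residue (OO w) (toO w a ha.le) ≠ 0 := by
    rw [Ne, res_zero, toO_coe, ha]
    exact lt_irrefl _
  obtain ⟨s, t, h⟩ := ff_repr (two_ne w h2) _ (IsLocalRing.residue (OO w) (toO w b hb)) ha0
  obtain ⟨s, rfl⟩ := IsLocalRing.residue_surjective s
  obtain ⟨t, rfl⟩ := IsLocalRing.residue_surjective t
  refine ⟨s, t, val_le w s, val_le w t, ?_⟩
  have h7 : IsLocalRing.residue (OO w) (s ^ 2 - toO w a ha.le * t ^ 2 - toO w b hb) = 0 := by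
    rw [map_sub, map_sub, map_mul, map_pow, map_pow, h, sub_self]
  rw [res_zero] at h7
  exact h7

lemma F_sq (h2 : Valued.v (2 : w.adicCompletion L) < 1) (b : w.adicCompletion L)
    (hb : Valued.v b ≤ 1) : ∃ s : w.adicCompletion L,
    Valued.v s ≤ 1 ∧ Valued.v (s ^ 2 - b) < 1 := by
  have h20 : (2 : kk w) = 0 := by
    have h1 : IsLocalRing.residue (OO w) 2 = 0 := by
      rw [res_zero]
      exact h2
    rwa [map_ofNat] at h1
  obtain ⟨s, h⟩ := ff_sq h20 (IsLocalRing.residue (OO w) (toO w b hb))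
  obtain ⟨s, rfl⟩ := IsLocalRing.residue_surjective s
  refine ⟨s, val_le w s, ?_⟩
  have h7 : IsLocalRing.residue (OO w) (s ^ 2 - toO w b hb) = 0 := by
    rw [map_sub, map_pow, h, sub_self]
  rw [res_zero] at h7
  exact h7

end res

end Pool.Agent.H85.BM
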