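import Mathlib

/-! # A smooth example -/

set_option autoImplicit false

namespace Pool.Agent.H85.BM

open MvPolynomial

section diag

variable {F : Type} [Field F]

/-- intersections of three diagonal quadrics in general position are smooth -/
theorem diag (m : Fin 6 → Fin 3 → F)
    (hm : ∀ e : Fin 3 ↪o Fin 6, (Matrix.of fun a b => m (e a) b).det ≠ 0)
    (c : Fin 6 → F) (hc : ∀ i, c i ≠ 0) (l : Fin 3 → F) (z : Fin 6 → F)
    (h1 : ∀ i, (∑ b, m i b * l b) * z i = 0)
    (h2 : ∀ b, ∑ i, c i * m i b * z i ^ 2 = 0) (hz : z ≠ 0) : l = 0 := by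
  classical
  set S : Finset (Fin 6) := Finset.univ.filter fun i => z i ≠ 0 with hS
  by_cases hS3 : 3 ≤ S.card
  · obtain ⟨T, hTS, hT⟩ := Finset.exists_subset_card_eq hS3
    apply Matrix.eq_zero_of_mulVec_eq_zero (hm (T.orderEmbOfFin hT))
    funext a
    have h3 : T.orderEmbOfFin hT a ∈ S := hTS (T.orderEmbOfFin_mem hT a)
    rw [hS, Finset.mem_filter] at h3
    exact (mul_eq_zero.1 (h1 (T.orderEmbOfFin hT a))).resolve_right h3.2
  · exfalso
    apply hz
    obtain ⟨T, hST, hT⟩ := Finset.exists_superset_card_eq (s := S) (n := 3) (by omega)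
      (by simp)
    set e := T.orderEmbOfFin hT with he
    have hTe : T = Finset.univ.map e.toEmbedding := by
      ext i
      rw [Finset.mem_map]
      constructor
      · intro hi
        have h3 : i ∈ Set.range e := by
          rw [he, Finset.range_orderEmbOfFin]
          exact hi
        obtain ⟨a, ha⟩ := h3
        exact ⟨a, Finset.mem_univ _, ha⟩
      · rintro ⟨a, -, rfl⟩
        exact T.orderEmbOfFin_mem hT a
    have hz0 : ∀ i, i ∉ T → z i = 0 := by
      intro i hi
      by_contra h3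
      exact hi (hST (by rw [hS, Finset.mem_filter]; exact ⟨Finset.mem_univ _, h3⟩))
    have h3 : ∀ b, ∑ a, c (e a) * z (e a) ^ 2 * m (e a) b = 0 := by
      intro b
      rw [← h2 b, ← Finset.sum_subset (Finset.subset_univ T), hTe, Finset.sum_map]
      · refine Finset.sum_congr rfl fun a _ => ?_
        change _ = c (e a) * m (e a) b * z (e a) ^ 2
        ring
      · intro i _ hi
        rw [hz0 i hi]
        ring
    have h4 := Matrix.eq_zero_of_vecMul_eq_zero (hm e) (v := fun a => c (e a) * z (e a) ^ 2)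
      (funext h3)
    funext i
    by_cases hi : i ∈ T
    · rw [hTe, Finset.mem_map] at hi
      obtain ⟨a, -, rfl⟩ := hi
      have h5 := congrFun h4 a
      simp only [Pi.zero_apply] at h5
      exact pow_eq_zero_iff two_ne_zero |>.1 ((mul_eq_zero.1 h5).resolve_left (hc _))
    · exact hz0 i hi

end diag

section ex

variable {F : Type} [Field F] [CharZero F] {s : F}

lemma ns (hs : s ^ 2 = 2) (p q : ℤ) (h : p ^ 2 - 2 * q ^ 2 ≠ 0) : (p : F) + q * s ≠ 0 := by
  intro h1
  apply h
  have h2 : ((p ^ 2 - 2 * q ^ 2 : ℤ) : F) = 0 := by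
    push_cast
    linear_combination ((p : F) - q * s) * h1 + (q : F) ^ 2 * hs
  exact_mod_cast h2

/-- the rows of the matrix of the example -/
def mm (s : F) : Fin 6 → Fin 3 → F :=
  ![![1, 3 + 2 * s, 10], ![1, 3 - 2 * s, 10], ![-1, 0, 1], ![1, 0, 0], ![0, 1, 1], ![0, 1, 2]]

lemma mm_det (hs : s ^ 2 = 2) (e : Fin 3 ↪o Fin 6) :
    (Matrix.of fun a b => mm s (e a) b).det ≠ 0 := by
  have h01 : e 0 < e 1 := e.strictMono (by decide)
  have h12 : e 1 < e 2 := e.strictMono (by decide)
  rw [Matrix.det_fin_three]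
  simp only [Matrix.of_apply]
  generalize e 0 = i at *
  generalize e 1 = j at *
  generalize e 2 = k at *
  have key : ∀ x : F, (∃ p q : ℤ, x = p + q * s ∧ p ^ 2 - 2 * q ^ 2 ≠ 0) → x ≠ 0 := by
    rintro x ⟨p, q, rfl, h⟩
    exact ns hs p q h
  apply key
  fin_cases i <;> fin_cases j <;> first | (exact absurd h01 (by decide)) | skip
  all_goals fin_cases k <;> first | (exact absurd h12 (by decide)) | skip
  · exact ⟨0, -44, by simp [mm]; ring, by norm_num⟩
  · exact ⟨0, 40, by simp [mm]; ring, by norm_num⟩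
  · exact ⟨0, -4, by simp [mm]; ring, by norm_num⟩
  · exact ⟨0, -8, by simp [mm]; ring, by norm_num⟩
  · exact ⟨3, 2, by simp [mm], by norm_num⟩
  · exact ⟨-8, 2, by simp [mm]; ring, by norm_num⟩
  · exact ⟨-5, 4, by simp [mm]; ring, by norm_num⟩
  · exact ⟨7, -2, by simp [mm]; ring, by norm_num⟩
  · exact ⟨4, -4, by simp [mm]; ring, by norm_num⟩
  · exact ⟨1, 0, by simp [mm]; ring, by norm_num⟩
  · exact ⟨3, -2, by simp [mm]; ring, by norm_num⟩
  · exact ⟨-8, -2, by simp [mm]; ring, by norm_num⟩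
  · exact ⟨-5, -4, by simp [mm]; ring, by norm_num⟩
  · exact ⟨7, 2, by simp [mm]; ring, by norm_num⟩
  · exact ⟨4, 4, by simp [mm]; ring, by norm_num⟩
  · exact ⟨1, 0, by simp [mm]; ring, by norm_num⟩
  · exact ⟨1, 0, by simp [mm], by norm_num⟩
  · exact ⟨1, 0, by simp [mm], by norm_num⟩
  · exact ⟨-1, 0, by simp [mm]; ring, by norm_num⟩
  · exact ⟨1, 0, by simp [mm]; ring, by norm_num⟩

end ex

end Pool.Agent.H85.BM
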