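import Pool.Agent.H85.BM.Sm

/-! # The smooth example -/

set_option autoImplicit false

namespace Pool.Agent.H85.BM

open MvPolynomial

/-- The three quadratic forms. -/
noncomputable def eqs {R : Type} [CommRing R] (a e : R) (G : MvPolynomial (Fin 6) R) :
    Fin 3 → MvPolynomial (Fin 6) R :=
  ![X 0 * X 1 - X 2 ^ 2 + C a * X 3 ^ 2,
    (X 0 + X 1) * (X 0 + 2 * X 1) - X 4 ^ 2 + C a * X 5 ^ 2,
    C e * (X 2 ^ 2 - X 4 ^ 2) - C a * G]

theorem ex_smooth {R F : Type} [CommRing R] [Field F] [CharZero F] [Algebra R F] {s : F}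
    (hs : s ^ 2 = 2) (z : Fin 6 → F) (hz : z ≠ 0)
    (hQ : ∀ j, aeval z (eqs (5 : R) 1 (-2 * X 0 * X 1 - 2 * X 5 ^ 2) j) = 0) :
    LinearIndependent F fun (j : Fin 3) (p : Fin 6) =>
      aeval z (pderiv p (eqs (5 : R) 1 (-2 * X 0 * X 1 - 2 * X 5 ^ 2) j)) := by
  rw [Fintype.linearIndependent_iff]
  intro g hg
  have hs0 : s ≠ 0 := by
    rintro rfl
    norm_num at hs
  have hp2 : ∀ i, pderiv i (2 : MvPolynomial (Fin 6) R) = 0 := by
    intro i
    have h : (2 : MvPolynomial (Fin 6) R) = C 2 := (map_ofNat C 2).symm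
    rw [h, pderiv_C]
  have h5 : algebraMap R F 5 = 5 := map_ofNat _ 5
  have q0 := hQ 0
  have q1 := hQ 1
  have q2 := hQ 2
  simp [eqs, h5] at q0 q1 q2
  have g0 := congrFun hg 0
  have g1 := congrFun hg 1
  have g2 := congrFun hg 2
  have g3 := congrFun hg 3
  have g4 := congrFun hg 4
  have g5 := congrFun hg 5
  simp [Fin.sum_univ_three, eqs, pderiv_X, hp2, h5] at g0 g1 g2 g3 g4 g5
  have key := diag (mm s) (mm_det hs) ![1 / (4 * s), -1 / (4 * s), 1, 5, -1, 5] ?_ g
    ![z 0 + s * z 1, z 0 - s * z 1, z 2, z 3, z 4, z 5] ?_ ?_ ?_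
  · intro j
    rw [key]
    rfl
  · intro i
    fin_cases i <;> simp [hs0]
  · intro i
    rw [Fin.sum_univ_three]
    fin_cases i
    · change (1 * g 0 + (3 + 2 * s) * g 1 + 10 * g 2) * (z 0 + s * z 1) = 0
      linear_combination g1 + s * g0 + 2 * g 1 * z 1 * hs
    · change (1 * g 0 + (3 - 2 * s) * g 1 + 10 * g 2) * (z 0 - s * z 1) = 0
      linear_combination g1 - s * g0 + 2 * g 1 * z 1 * hs
    · change (-1 * g 0 + 0 * g 1 + 1 * g 2) * z 2 = 0
      linear_combination g2 / 2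
    · change (1 * g 0 + 0 * g 1 + 0 * g 2) * z 3 = 0
      rcases g3 with h | h
      · rw [h]
        ring
      · rw [h]
        ring
    · change (0 * g 0 + 1 * g 1 + 1 * g 2) * z 4 = 0
      linear_combination -g4 / 2
    · change (0 * g 0 + 1 * g 1 + 2 * g 2) * z 5 = 0
      linear_combination g5 / 10
  · intro b
    have hi : s⁻¹ * s = 1 := inv_mul_cancel₀ hs0
    fin_cases b <;> simp [Fin.sum_univ_six, mm]
    · linear_combination q0 + z 0 * z 1 * hi
    · linear_combination q1 + (3 * z 0 * z 1 + z 0 ^ 2 + s ^ 2 * z 1 ^ 2) * hi + z 1 ^ 2 * hs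
    · linear_combination q2 + 10 * z 0 * z 1 * hi
  · intro h
    apply hz
    have e0 : z 0 + s * z 1 = 0 := congrFun h 0
    have e1 : z 0 - s * z 1 = 0 := congrFun h 1
    have f0 : z 0 = 0 := by linear_combination (e0 + e1) / 2
    have f1 : z 1 = 0 := by
      have : s * z 1 = 0 := by linear_combination (e0 - e1) / 2
      exact (mul_eq_zero.1 this).resolve_left hs0
    funext i
    fin_cases i
    · exact f0
    · exact f1
    · exact congrFun h 2
    · exact congrFun h 3
    · exact congrFun h 4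
    · exact congrFun h 5

end Pool.Agent.H85.BM
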